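import Mathlib

/-!
# Row Fna (MP_718a21_CS): p'-elements normalising p-subgroups (110 lines), Mathlib only

`FN p G`: no prime divisor `r ≠ p` of `|G|` divides `p^i - 1` when `p^i ∣ |G|`, `i ≥ 1`.
* `FN.sub`: inherited by subgroups (`Subgroup.card_subgroup_dvd_card`).
* `fna`: `U` a `p`-subgroup, `R` an `r`-subgroup (`r ≠ p` prime) normalising `U`. Then `R` centralises `U`.
 Proof: if `R` is trivial, clear. Otherwise `r ∣ Nat.card R ∣ Nat.card G`. `R` acts on `U` by conjugation (`MulAction`, e.g. via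
 `MulAut.conjNormal` or by hand), the fixed points form the subgroup `C = U ⊓ centralizer R` of `U`. `Nat.card U = p^b`, `Nat.card C = p^c`, `c ≤ b`
 (`IsPGroup.iff_card`), and `Nat.card U ≡ Nat.card (fixed points) [MOD r]` (`IsPGroup.card_modEq_card_fixedPoints`), so
 `r ∣ p^c (p^(b-c) - 1)`, `r ∣ p^(b-c) - 1` as `r ≠ p`. If `b > c`, then `p^(b-c) ∣ Nat.card U ∣ Nat.card G` contradicts `FN`. So `C = U`.
* `fna_elt`: `x` normalises `U` and `p ∤ orderOf x`: `x` centralises `U`. Proof: by strong induction on the order, or: `x` is a product of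
 powers of `x` of prime power orders; or: the subgroup `Z = zpowers x ⊓ centralizer U` of `zpowers x` contains the Sylow
 `r`-subgroups of `zpowers x` for all primes `r` (each is an `r`-subgroup normalising `U`, `r ≠ p`, by `fna`), so it is everything.
* `fna_sup`: `S` a Sylow `p`-subgroup of `N = U.normalizer` (given as `S : Sylow p U.normalizer`): every `x ∈ N` is `c * s` with `c` in the
 centraliser of `U` and `s ∈ S`. Proof: `C = (centralizer U).subgroupOf N` is normal in `N` (`Subgroup.normal_centralizer..`, or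
 by hand). `N / C` is a `p`-group: for `x ∈ N`, `orderOf x = p^k m`, `p ∤ m`: `x^(p^k)` has order `m`, prime to `p`, so it is in `C` by
 `fna_elt`. So the index of `C` in `N` is a power of `p` (`IsPGroup.iff_card`, `Subgroup.index`), so the index of `C ⊔ S` divides a power of
 `p`; it divides the index of `S`, which is prime to `p`. So `C ⊔ S = ⊤` (`Subgroup.mul_normal`, `Subgroup.mem_sup_of_normal_left`).
* `fna_conj`: two Sylow `p`-subgroups `S`, `T` of `N` are conjugate by an element of the centraliser of `U`: `T = S^n` (Sylow), `n = c * s`.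
-/

set_option autoImplicit false

namespace Pool.H67.CS

variable {G : Type*} [Group G] [Finite G]

/-- no prime divisor `r ≠ p` of `|G|` divides `p^i - 1`, if `p^i` divides `|G|`, `i ≥ 1` -/
def FN (p : ℕ) (G : Type*) [Group G] : Prop :=
  ∀ r : ℕ, r.Prime → r ∣ Nat.card G → r ≠ p → ∀ i, 1 ≤ i → p ^ i ∣ Nat.card G → ¬ r ∣ p ^ i - 1

theorem FN.sub {p : ℕ} (h : FN p G) (K : Subgroup G) : FN p K := by
  intro r hr hrd hrp i hi hpi
  exact h r hr (hrd.trans (Subgroup.card_subgroup_dvd_card K)) hrp i hi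
    (hpi.trans (Subgroup.card_subgroup_dvd_card K))

theorem fna {p r : ℕ} [Fact p.Prime] [Fact r.Prime] (h : FN p G) (hrp : r ≠ p) (U R : Subgroup G)
    (hU : IsPGroup p U) (hR : IsPGroup r R) (hn : ∀ x ∈ R, ∀ u ∈ U, x * u * x⁻¹ ∈ U) :
    ∀ x ∈ R, ∀ u ∈ U, x * u = u * x := by
  have hp : p.Prime := Fact.out
  have hr : r.Prime := Fact.out
  obtain ⟨n, hn'⟩ := IsPGroup.iff_card.1 hR
  rcases Nat.eq_zero_or_pos n with h0 | h0
  · rw [h0, pow_zero] at hn'
    intro x hx u _
    have h1 : R = ⊥ := Subgroup.eq_bot_of_card_eq R hn'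
    rw [h1, Subgroup.mem_bot] at hx
    rw [hx, one_mul, mul_one]
  have hrG : r ∣ Nat.card G := by
    refine dvd_trans ?_ (Subgroup.card_subgroup_dvd_card R)
    rw [hn']
    exact dvd_pow_self r (by omega)
  let act : MulAction R U :=
    { smul := fun x u => ⟨(x : G) * u * (x : G)⁻¹, hn x x.2 u u.2⟩
      one_smul := fun u => by
        apply Subtype.ext
        show ((1 : R) : G) * u * ((1 : R) : G)⁻¹ = u
        simp
      mul_smul := fun x y u => by
        apply Subtype.ext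
        show ((x * y : R) : G) * u * ((x * y : R) : G)⁻¹ = x * (y * u * (y : G)⁻¹) * (x : G)⁻¹
        rw [Subgroup.coe_mul]
        group }
  have hsm : ∀ (x : R) (u : U), ((x • u : U) : G) = (x : G) * u * (x : G)⁻¹ := fun _ _ => rfl
  obtain ⟨C, hC⟩ : ∃ C : Subgroup G, ∀ u, u ∈ C ↔ u ∈ U ∧ ∀ x ∈ R, x * u = u * x :=
    ⟨U ⊓ Subgroup.centralizer (R : Set G), fun u => by
      rw [Subgroup.mem_inf, Subgroup.mem_centralizer_iff]
      rfl⟩
  have hCU : C ≤ U := fun u hu => ((hC u).1 hu).1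
  have hfix : Nat.card (MulAction.fixedPoints R U) = Nat.card C := by
    refine Nat.card_congr
      { toFun := fun f => ⟨f.1.1, (hC _).2 ⟨f.1.2, fun x hx => ?_⟩⟩
        invFun := fun c => ⟨⟨c, hCU c.2⟩, fun x => ?_⟩
        left_inv := fun f => rfl
        right_inv := fun c => rfl }
    · have e := congrArg Subtype.val (f.2 ⟨x, hx⟩)
      rw [hsm] at e
      change x * (f.1 : G) * x⁻¹ = _ at e
      exact mul_inv_eq_iff_eq_mul.1 e
    · apply Subtype.ext
      rw [hsm]
      have e := ((hC c).1 c.2).2 x x.2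
      show (x : G) * c * (x : G)⁻¹ = c
      rw [e, mul_inv_cancel_right]
  have hmod := hR.card_modEq_card_fixedPoints U
  rw [hfix] at hmod
  obtain ⟨b, hb⟩ := IsPGroup.iff_card.1 hU
  have hCp : IsPGroup p C := hU.to_le hCU
  obtain ⟨c, hc⟩ := IsPGroup.iff_card.1 hCp
  have hcb : c ≤ b := by
    have h1 := Subgroup.card_dvd_of_le hCU
    rw [hb, hc] at h1
    exact (Nat.pow_dvd_pow_iff_le_right hp.one_lt).1 h1
  have hbc : b = c := by
    by_contra hne
    have hlt : c < b := lt_of_le_of_ne hcb (Ne.symm hne)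
    rw [hb, hc] at hmod
    have h1 : r ∣ p ^ b - p ^ c := (Nat.modEq_iff_dvd' (Nat.pow_le_pow_right hp.pos hcb)).1 hmod.symm
    have h2 : p ^ b - p ^ c = p ^ c * (p ^ (b - c) - 1) := by
      rw [Nat.mul_sub, ← pow_add, mul_one]
      congr 2
      omega
    rw [h2] at h1
    rcases (hr.dvd_mul).1 h1 with h3 | h3
    · exact hrp ((Nat.prime_dvd_prime_iff_eq hr hp).1 (hr.dvd_of_dvd_pow h3))
    · refine h r hr hrG hrp (b - c) (by omega) ?_ h3
      refine dvd_trans ?_ (Subgroup.card_subgroup_dvd_card U)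
      rw [hb]
      exact pow_dvd_pow p (by omega)
  have hCeq : C = U := Subgroup.eq_of_le_of_card_ge hCU (by rw [hb, hc, hbc])
  intro x hx u hu
  rw [← hCeq] at hu
  exact ((hC u).1 hu).2 x hx

theorem Fna_pow {U : Subgroup G} {x : G} (hx : ∀ u ∈ U, x * u * x⁻¹ ∈ U) (k : ℕ) :
    ∀ u ∈ U, x ^ k * u * (x ^ k)⁻¹ ∈ U := by
  induction k with
  | zero => intro u hu; simpa using hu
  | succ k ih =>
    intro u hu
    have h1 := hx _ (ih u hu)
    have h2 : x ^ (k + 1) * u * (x ^ (k + 1))⁻¹ = x * (x ^ k * u * (x ^ k)⁻¹) * x⁻¹ := by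
      rw [pow_succ']
      group
    rw [h2]
    exact h1

theorem Fna_aux {p : ℕ} [Fact p.Prime] (h : FN p G) (U : Subgroup G) (hU : IsPGroup p U) (n : ℕ) :
    ∀ x : G, orderOf x = n → (∀ u ∈ U, x * u * x⁻¹ ∈ U) → ¬ p ∣ n → ∀ u ∈ U, x * u = u * x := by
  induction n using Nat.strong_induction_on with
  | _ n ih =>
    intro x hxn hx hpn u hu
    by_cases h1 : n = 1
    · rw [h1, orderOf_eq_one_iff] at hxn
      rw [hxn, one_mul, mul_one]
    have hn0 : n ≠ 0 := by
      rw [← hxn]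
      exact (orderOf_pos x).ne'
    obtain ⟨r, hr, hrn⟩ := Nat.exists_prime_and_dvd h1
    have hrp : r ≠ p := fun e => hpn (e ▸ hrn)
    obtain ⟨e, m, hm, hnm⟩ := Nat.exists_eq_pow_mul_and_not_dvd hn0 r hr.ne_one
    have he : e ≠ 0 := by
      intro e0
      rw [e0, pow_zero, one_mul] at hnm
      exact hm (hnm ▸ hrn)
    have hm0 : m ≠ 0 := by
      intro m0
      rw [m0, mul_zero] at hnm
      exact hn0 hnm
    have hre : 1 < r ^ e := Nat.one_lt_pow he hr.one_lt
    have : Fact r.Prime := ⟨hr⟩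
    -- y = x ^ m
    have hy : orderOf (x ^ m) = r ^ e := by
      rw [orderOf_pow_of_dvd hm0 (by rw [hxn, hnm]; exact dvd_mul_left _ _), hxn, hnm]
      exact Nat.mul_div_cancel _ (Nat.pos_of_ne_zero hm0)
    have hz : orderOf (x ^ r ^ e) = m := by
      rw [orderOf_pow_of_dvd (by positivity) (by rw [hxn, hnm]; exact dvd_mul_right _ _), hxn, hnm]
      exact Nat.mul_div_cancel_left _ (by positivity)
    have hy1 : x ^ m * u = u * x ^ m := by
      refine fna h hrp U (Subgroup.zpowers (x ^ m)) hU ?_ ?_ (x ^ m)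
        (Subgroup.mem_zpowers _) u hu
      · apply IsPGroup.of_card (n := e)
        rw [Nat.card_zpowers, hy]
      · intro w hw v hv
        obtain ⟨k, rfl⟩ := mem_powers_iff_mem_zpowers.2 hw
        exact Fna_pow (Fna_pow hx m) k v hv
    have hz1 : x ^ r ^ e * u = u * x ^ r ^ e := by
      refine ih m ?_ (x ^ r ^ e) hz (Fna_pow hx _) ?_ u hu
      · rw [hnm]
        exact lt_mul_left (Nat.pos_of_ne_zero hm0) hre
      · intro hpm
        apply hpn
        rw [hnm]
        exact hpm.mul_left _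
    have hcop : IsCoprime ((r ^ e : ℕ) : ℤ) (m : ℤ) := by
      rw [Nat.isCoprime_iff_coprime]
      exact Nat.Coprime.pow_left e ((Nat.Prime.coprime_iff_not_dvd hr).2 hm)
    obtain ⟨a, b, hab⟩ := hcop
    have hx1 : x = (x ^ r ^ e) ^ a * (x ^ m) ^ b := by
      rw [← zpow_natCast, ← zpow_mul, ← zpow_natCast, ← zpow_mul, ← zpow_add]
      have : ((r ^ e : ℕ) : ℤ) * a + (m : ℤ) * b = 1 := by linarith
      rw [this, zpow_one]
    have c1 : Commute (x ^ r ^ e) u := hz1
    have c2 : Commute (x ^ m) u := hy1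
    rw [hx1]
    exact (c1.zpow_left a).mul_left (c2.zpow_left b)

theorem fna_elt {p : ℕ} [Fact p.Prime] (h : FN p G) (U : Subgroup G) (hU : IsPGroup p U) (x : G)
    (hx : ∀ u ∈ U, x * u * x⁻¹ ∈ U) (ho : ¬ p ∣ orderOf x) : ∀ u ∈ U, x * u = u * x :=
  Fna_aux h U hU _ x rfl hx ho

theorem fna_sup {p : ℕ} [Fact p.Prime] (h : FN p G) (U : Subgroup G) (hU : IsPGroup p U)
    (S : Sylow p (Subgroup.normalizer (U : Set G))) (x : Subgroup.normalizer (U : Set G)) :
    ∃ c : Subgroup.normalizer (U : Set G), (∀ u ∈ U, (c : G) * u = u * c) ∧ ∃ s ∈ S, x = c * s := by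
  have hp : p.Prime := Fact.out
  obtain ⟨C, hC⟩ : ∃ C : Subgroup (Subgroup.normalizer (U : Set G)),
      ∀ c, c ∈ C ↔ ∀ u ∈ U, (c : G) * u = u * c := by
    refine ⟨(Subgroup.centralizer (U : Set G)).subgroupOf _, fun c => ?_⟩
    rw [Subgroup.mem_subgroupOf, Subgroup.mem_centralizer_iff]
    exact ⟨fun h u hu => (h u hu).symm, fun h u hu => (h u hu).symm⟩
  have hnorm : ∀ g : Subgroup.normalizer (U : Set G), ∀ u ∈ U, (g : G) * u * (g : G)⁻¹ ∈ U := by
    intro g u hu
    exact (Subgroup.mem_normalizer_iff.1 g.2 u).1 hu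
  have hCn : C.Normal := by
    refine ⟨fun c hc g => (hC _).2 fun u hu => ?_⟩
    have h1 := (hC c).1 hc (((g⁻¹ : Subgroup.normalizer (U : Set G)) : G) * u *
      ((g⁻¹ : Subgroup.normalizer (U : Set G)) : G)⁻¹) (hnorm g⁻¹ u hu)
    simp only [Subgroup.coe_mul, Subgroup.coe_inv, inv_inv] at h1 ⊢
    have h2 : (g : G) * c * (g : G)⁻¹ * u = g * (c * ((g : G)⁻¹ * u * g)) * (g : G)⁻¹ := by group
    rw [h2, h1]
    group
  have hQ : IsPGroup p (Subgroup.normalizer (U : Set G) ⧸ C) := by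
    intro q
    obtain ⟨y, rfl⟩ := QuotientGroup.mk_surjective q
    obtain ⟨k, m, hm, hkm⟩ := Nat.exists_eq_pow_mul_and_not_dvd (orderOf_pos y).ne' p hp.ne_one
    refine ⟨k, ?_⟩
    rw [← QuotientGroup.mk_pow, QuotientGroup.eq_one_iff, hC]
    have hord : orderOf (y ^ p ^ k) = m := by
      rw [orderOf_pow_of_dvd (pow_pos hp.pos k).ne' (by rw [hkm]; exact dvd_mul_right _ _), hkm]
      exact Nat.mul_div_cancel_left _ (pow_pos hp.pos k)
    refine fna_elt h U hU _ (hnorm _) ?_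
    rw [Subgroup.orderOf_coe, hord]
    exact hm
  have hidx : ∃ j, C.index = p ^ j := IsPGroup.iff_card.1 hQ
  obtain ⟨j, hj⟩ := hidx
  have htop : C ⊔ (S : Subgroup (Subgroup.normalizer (U : Set G))) = ⊤ := by
    rw [← Subgroup.index_eq_one]
    have d1 : (C ⊔ (S : Subgroup (Subgroup.normalizer (U : Set G)))).index ∣ p ^ j := by
      rw [← hj]
      exact Subgroup.index_dvd_of_le le_sup_left
    have d2 : (C ⊔ (S : Subgroup (Subgroup.normalizer (U : Set G)))).index ∣
        (S : Subgroup (Subgroup.normalizer (U : Set G))).index :=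
      Subgroup.index_dvd_of_le le_sup_right
    obtain ⟨i, -, hi⟩ := (Nat.dvd_prime_pow hp).1 d1
    rcases Nat.eq_zero_or_pos i with h0 | h0
    · rw [hi, h0, pow_zero]
    · exfalso
      apply S.not_dvd_index
      refine dvd_trans ?_ d2
      rw [hi]
      exact dvd_pow_self p (by omega)
  have hx : x ∈ C ⊔ (S : Subgroup (Subgroup.normalizer (U : Set G))) := by
    rw [htop]
    exact Subgroup.mem_top x
  obtain ⟨c, hc, s, hs, e⟩ := Subgroup.mem_sup_of_normal_left.1 hx
  exact ⟨c, (hC c).1 hc, s, hs, e.symm⟩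

theorem fna_conj {p : ℕ} [Fact p.Prime] (h : FN p G) (U : Subgroup G) (hU : IsPGroup p U)
    (S T : Sylow p (Subgroup.normalizer (U : Set G))) :
    ∃ c : Subgroup.normalizer (U : Set G), (∀ u ∈ U, (c : G) * u = u * c) ∧
      ∀ s, s ∈ S ↔ c * s * c⁻¹ ∈ T := by
  obtain ⟨n, hn⟩ := MulAction.exists_smul_eq (Subgroup.normalizer (U : Set G)) S T
  obtain ⟨c, hc, s, hs, hcs⟩ := fna_sup h U hU S n
  refine ⟨c, hc, fun t => ?_⟩
  have hT : ∀ t, t ∈ T ↔ n⁻¹ * t * n ∈ S := by
    intro t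
    rw [← hn]
    show t ∈ ((n • S : Sylow p _) : Subgroup _) ↔ _
    rw [Sylow.coe_subgroup_smul, Subgroup.mem_pointwise_smul_iff_inv_smul_mem]
    have e : (MulAut.conj n)⁻¹ • t = n⁻¹ * t * n := by
      rw [← map_inv, MulAut.smul_def, MulAut.conj_apply, inv_inv]
    rw [e]
    rfl
  rw [hT, hcs]
  have e : (c * s)⁻¹ * (c * t * c⁻¹) * (c * s) = s⁻¹ * t * s := by group
  rw [e]
  constructor
  · intro ht
    exact mul_mem (mul_mem (inv_mem hs) ht) hs
  · intro ht
    have e2 : t = s * (s⁻¹ * t * s) * s⁻¹ := by group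
    rw [e2]
    exact mul_mem (mul_mem hs ht) (inv_mem hs)

end Pool.H67.CS
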