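import Pool.Agent.H67.CS.Fna

/-!
# Row Fnb (MP_718a21_CS): control of fusion (150 lines)

`fnb`: for two Sylow `p`-subgroups `S`, `T` of `G` there is `c` centralising `S ⊓ T` with `T = c S c⁻¹`.
Proof: strong induction on `Nat.card S - Nat.card (S ⊓ T)` (equivalently downward on `Nat.card (S ⊓ T)`). Let `D = S ⊓ T`. If
`D = S`, then `S = T` (same order), `c = 1`. Otherwise `D < S` and `D < T`. Let `N = normalizer D`. In a `p`-group
proper subgroups are properly contained in their normalisers: `D < S ⊓ N` and `D < T ⊓ N` (for the finite `p`-group `S`: `IsPGroup.isNilpotent`,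
`Group.normalizerCondition_of_isNilpotent`, `NormalizerCondition`, applied to `D.subgroupOf S`). Both are `p`-subgroups of `N`, so they are
contained in Sylow `p`-subgroups `S0`, `T0` of `N` (`IsPGroup.exists_le_sylow`). By `fna_conj` (with `U = D`) there is `c1 ∈ N` centralising
`D` with `T0 = c1 S0 c1⁻¹`. Let `S1` be a Sylow `p`-subgroup of `G` containing (the image in `G` of) `S0`. `S ⊓ S1 ≥ S ⊓ N > D`, so by
induction `S1 = c2 S c2⁻¹` with `c2` centralising `S ⊓ S1 ≥ D`. Let `S2 = c1 S1 c1⁻¹` (a Sylow subgroup) `≥ T0 ≥ T ⊓ N`, so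
`S2 ⊓ T ≥ T ⊓ N > D`, and by induction `T = c3 S2 c3⁻¹` with `c3` centralising `S2 ⊓ T ≥ D`. So `c = c3 c1 c2`.
(The statement is for all pairs, so the induction is on `n` with hypothesis `Nat.card S - Nat.card (S ⊓ T) ≤ n`; all Sylow subgroups have the
same order.)
`fnb_fusion`: `x ∈ P`, `g x g⁻¹ ∈ P` ⇒ there is `v ∈ P` with `v x v⁻¹ = g x g⁻¹`. Proof: `y = g x g⁻¹` is in `P` and in `S = g P g⁻¹`
(a Sylow subgroup), so there is `c` centralising `S ⊓ P ∋ y` with `P = c S c⁻¹ = (c g) P (c g)⁻¹`. So `n = c g` normalises `P`, and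
`n x n⁻¹ = c y c⁻¹ = y`. Let `U = P` in `fna_sup` (`P` itself is a Sylow subgroup of its normaliser: the element `n` of the normaliser is
`d * s` with `d` centralising `P` and `s` in a Sylow `p`-subgroup of the normaliser, which is contained in `P` because `P` is normal in
its normaliser and a maximal `p`-subgroup): `y = d s x s⁻¹ d⁻¹ = s x s⁻¹` as `s x s⁻¹ ∈ P`. So `v = s`.
-/

set_option autoImplicit false

namespace Pool.H67.CS

open scoped Pointwise

variable {G : Type*} [Group G] [Finite G]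

private theorem Fnb_mem {p : ℕ} (g : G) (S : Sylow p G) (x : G) :
    x ∈ g • S ↔ g⁻¹ * x * g ∈ S := by
  constructor
  · intro h
    have h1 : x ∈ MulAut.conj g • (S : Subgroup G) := h
    rw [Subgroup.mem_pointwise_smul_iff_inv_smul_mem] at h1
    have h2 : (MulAut.conj g)⁻¹ • x = g⁻¹ * x * g := by
      rw [← map_inv]
      simp [MulAut.smul_def, MulAut.conj_apply]
    rw [h2] at h1
    exact h1
  · intro h
    show x ∈ MulAut.conj g • (S : Subgroup G)
    rw [Subgroup.mem_pointwise_smul_iff_inv_smul_mem]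
    have h2 : (MulAut.conj g)⁻¹ • x = g⁻¹ * x * g := by
      rw [← map_inv]
      simp [MulAut.smul_def, MulAut.conj_apply]
    rw [h2]
    exact h

private theorem Fnb_grow {p : ℕ} [Fact p.Prime] (D : Subgroup G) (S : Sylow p G)
    (hD : D ≤ (S : Subgroup G)) (hne : D ≠ (S : Subgroup G)) :
    ∃ x ∈ (S : Subgroup G), x ∈ Subgroup.normalizer (D : Set G) ∧ x ∉ D := by
  have hnil : Group.IsNilpotent (S : Subgroup G) := S.isPGroup'.isNilpotent
  have hnc : NormalizerCondition (S : Subgroup G) := Group.normalizerCondition_of_isNilpotent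
  have hlt : D.subgroupOf (S : Subgroup G) < ⊤ := by
    rw [lt_top_iff_ne_top]
    intro h
    exact hne (le_antisymm hD (Subgroup.subgroupOf_eq_top.1 h))
  have h1 := hnc _ hlt
  obtain ⟨x, hx1, hx2⟩ := SetLike.exists_of_lt h1
  refine ⟨x, x.2, ?_, ?_⟩
  · rw [← Subgroup.subgroupOf_normalizer_eq hD] at hx1
    exact Subgroup.mem_subgroupOf.1 hx1
  · intro h
    exact hx2 (Subgroup.mem_subgroupOf.2 h)

private theorem Fnb_card_lt {D E : Subgroup G} (h : D ≤ E) {x : G} (hx : x ∈ E) (hx' : x ∉ D) :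
    Nat.card D < Nat.card E := by
  have hle : Nat.card D ≤ Nat.card E := Subgroup.card_le_of_le h
  refine lt_of_le_of_ne hle fun he => ?_
  have : D = E := Subgroup.eq_of_le_of_card_ge h he.ge
  exact hx' (this ▸ hx)

private theorem Fnb_card {p : ℕ} [Fact p.Prime] (S T : Sylow p G) :
    Nat.card (S : Subgroup G) = Nat.card (T : Subgroup G) := by
  have h1 := S.card_eq_multiplicity
  have h2 := T.card_eq_multiplicity
  exact h1.trans h2.symm

private theorem Fnb_core {p : ℕ} [Fact p.Prime] (h : FN p G) (n : ℕ) : ∀ S T : Sylow p G,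
    Nat.card (S : Subgroup G) - Nat.card ((S : Subgroup G) ⊓ (T : Subgroup G) : Subgroup G) ≤ n →
    ∃ c : G, (∀ u, u ∈ S → u ∈ T → c * u = u * c) ∧ c • S = T := by
  induction n with
  | zero =>
    intro S T hc
    have hle : ((S : Subgroup G) ⊓ (T : Subgroup G) : Subgroup G) = (S : Subgroup G) :=
      Subgroup.eq_of_le_of_card_ge inf_le_left (by omega)
    have hST : (S : Subgroup G) ≤ (T : Subgroup G) := inf_eq_left.1 hle
    have hTS : (T : Subgroup G) = (S : Subgroup G) := S.is_maximal' T.isPGroup' hST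
    have : S = T := Sylow.ext hTS.symm
    subst this
    exact ⟨1, fun u _ _ => by rw [one_mul, mul_one], one_smul G S⟩
  | succ n ih =>
    intro S T hc
    set D : Subgroup G := (S : Subgroup G) ⊓ (T : Subgroup G) with hDdef
    by_cases hDS : D = (S : Subgroup G)
    · have hST : (S : Subgroup G) ≤ (T : Subgroup G) := inf_eq_left.1 hDS
      have hTS : (T : Subgroup G) = (S : Subgroup G) := S.is_maximal' T.isPGroup' hST
      have : S = T := Sylow.ext hTS.symm
      subst this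
      exact ⟨1, fun u _ _ => by rw [one_mul, mul_one], one_smul G S⟩
    have hDT : D ≠ (T : Subgroup G) := by
      intro hDT
      have hTS : (T : Subgroup G) ≤ (S : Subgroup G) := inf_eq_right.1 hDT
      have hST : (S : Subgroup G) = (T : Subgroup G) := T.is_maximal' S.isPGroup' hTS
      exact hDS (hDT.trans hST.symm)
    have hDleS : D ≤ (S : Subgroup G) := inf_le_left
    have hDleT : D ≤ (T : Subgroup G) := inf_le_right
    have hDp : IsPGroup p D := S.isPGroup'.to_le hDleS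
    set N : Subgroup G := Subgroup.normalizer (D : Set G) with hN
    have hDN : D ≤ N := Subgroup.le_normalizer
    obtain ⟨x, hxS, hxN, hxD⟩ := Fnb_grow D S hDleS hDS
    obtain ⟨x', hxT', hxN', hxD'⟩ := Fnb_grow D T hDleT hDT
    have hSp : IsPGroup p ((S : Subgroup G).comap N.subtype) := S.isPGroup'.comap_subtype
    have hTp : IsPGroup p ((T : Subgroup G).comap N.subtype) := T.isPGroup'.comap_subtype
    obtain ⟨S0, hS0⟩ := hSp.exists_le_sylow
    obtain ⟨T0, hT0⟩ := hTp.exists_le_sylow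
    obtain ⟨c1, hc1, hc1'⟩ := fna_conj h D hDp S0 T0
    obtain ⟨S1, hS1⟩ := (S0.isPGroup'.map N.subtype).exists_le_sylow
    have hS01 : ∀ z : N, z ∈ S0 → (z : G) ∈ S1 := fun z hz =>
      hS1 (Subgroup.mem_map.2 ⟨z, hz, rfl⟩)
    have hSN : ∀ z, z ∈ S → z ∈ N → z ∈ S1 := fun z hz hzN =>
      hS01 ⟨z, hzN⟩ (hS0 (Subgroup.mem_comap.2 hz))
    have hTN : ∀ z, z ∈ T → z ∈ N → z ∈ (c1 : G) • S1 := by
      intro z hz hzN
      have h1 : (⟨z, hzN⟩ : N) ∈ T0 := hT0 (Subgroup.mem_comap.2 hz)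
      have h2 : c1⁻¹ * (⟨z, hzN⟩ : N) * c1 ∈ S0 := by
        rw [hc1']
        have e : c1 * (c1⁻¹ * (⟨z, hzN⟩ : N) * c1) * c1⁻¹ = ⟨z, hzN⟩ := by group
        rw [e]
        exact h1
      rw [Fnb_mem]
      exact hS01 _ h2
    have hcard1 : Nat.card D < Nat.card ((S : Subgroup G) ⊓ (S1 : Subgroup G) : Subgroup G) :=
      Fnb_card_lt (fun z hz => ⟨hDleS hz, hSN z (hDleS hz) (hDN hz)⟩) (x := x)
        ⟨hxS, hSN x hxS hxN⟩ hxD
    obtain ⟨c2, hc2, hc2'⟩ := ih S S1 (by omega)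
    have hcard2 : Nat.card D < Nat.card (((((c1 : G) • S1 : Sylow p G)) : Subgroup G) ⊓
        (T : Subgroup G) : Subgroup G) :=
      Fnb_card_lt (fun z hz => ⟨hTN z (hDleT hz) (hDN hz), hDleT hz⟩) (x := x')
        ⟨hTN x' hxT' hxN', hxT'⟩ hxD'
    have hcS := Fnb_card ((c1 : G) • S1) S
    obtain ⟨c3, hc3, hc3'⟩ := ih ((c1 : G) • S1) T (by omega)
    refine ⟨c3 * c1 * c2, fun u hu hu' => ?_, ?_⟩
    · have huD : u ∈ D := ⟨hu, hu'⟩
      have e1 := hc1 u huD
      have e2 := hc2 u hu (hSN u hu (hDN huD))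
      have e3 := hc3 u (hTN u hu' (hDN huD)) hu'
      calc c3 * c1 * c2 * u = c3 * (c1 * (c2 * u)) := by group
        _ = c3 * (c1 * u * c2) := by rw [e2]; group
        _ = c3 * u * (c1 * c2) := by rw [e1]; group
        _ = u * (c3 * c1 * c2) := by rw [e3]; group
    · rw [mul_smul, mul_smul, hc2', hc3']

theorem fnb {p : ℕ} [Fact p.Prime] (h : FN p G) (S T : Sylow p G) :
    ∃ c : G, (∀ u, u ∈ S → u ∈ T → c * u = u * c) ∧ ∀ s, s ∈ S ↔ c * s * c⁻¹ ∈ T := by
  obtain ⟨c, hc, hc'⟩ := Fnb_core h _ S T le_rfl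
  refine ⟨c, hc, fun s => ?_⟩
  rw [← hc', Fnb_mem]
  have e : c⁻¹ * (c * s * c⁻¹) * c = s := by group
  rw [e]

theorem fnb_fusion {p : ℕ} [Fact p.Prime] (h : FN p G) (P : Sylow p G) (x g : G) (hx : x ∈ P)
    (hg : g * x * g⁻¹ ∈ P) : ∃ v ∈ P, v * x * v⁻¹ = g * x * g⁻¹ := by
  obtain ⟨c, hc, hc'⟩ := fnb h (g • P) P
  have hgm : ∀ z, g * z * g⁻¹ ∈ g • P ↔ z ∈ P := by
    intro z
    rw [Fnb_mem]
    have e : g⁻¹ * (g * z * g⁻¹) * g = z := by group
    rw [e]
  have hy := hc (g * x * g⁻¹) ((hgm x).2 hx) hg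
  have hn : c * g ∈ Subgroup.normalizer ((P : Subgroup G) : Set G) := by
    rw [Subgroup.mem_normalizer_iff]
    intro z
    have h1 := hc' (g * z * g⁻¹)
    rw [hgm z] at h1
    have e : c * g * z * (c * g)⁻¹ = c * (g * z * g⁻¹) * c⁻¹ := by group
    rw [e]
    exact h1
  have hle : (P : Subgroup G) ≤ Subgroup.normalizer ((P : Subgroup G) : Set G) :=
    Subgroup.le_normalizer
  obtain ⟨d, hd, s, hs, he⟩ := fna_sup h (P : Subgroup G) P.isPGroup' (P.subtype hle) ⟨c * g, hn⟩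
  have hsP : (s : G) ∈ P := hs
  refine ⟨s, hsP, ?_⟩
  have he' : c * g = (d : G) * s := congrArg Subtype.val he
  have hsx : (s : G) * x * (s : G)⁻¹ ∈ (P : Subgroup G) :=
    mul_mem (mul_mem hsP hx) (inv_mem hsP)
  have h1 := hd _ hsx
  have h2 : c * (g * x * g⁻¹) * c⁻¹ = g * x * g⁻¹ := by rw [hy]; group
  have h3 : c * (g * x * g⁻¹) * c⁻¹ = (c * g) * x * (c * g)⁻¹ := by group
  have h4 : (c * g) * x * (c * g)⁻¹ = (d : G) * ((s : G) * x * (s : G)⁻¹) * (d : G)⁻¹ := by
    rw [he']; group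
  rw [← h2, h3, h4, h1]
  group

end Pool.H67.CS
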