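import Pool.Agent.H67.CS.Fnb

/-!
# Row Fnc (MP_718a21_CS): the normal p-complement (130 lines)

`fnc`: if `FN p G`, then `G` has a normal subgroup `N` with `p ∤ |N|` and `|G| = p^k |N|`.
Proof: strong induction on `|G|` (over all groups in the same universe; or over the subgroups of `G`). Let `P` be a Sylow
`p`-subgroup. If `P` is trivial, `N = ⊤` (`p ∤ |G|`, `k = 0`). Let `P ≠ 1`.
(1) The focal subgroup `Subgroup.focalSubgroup P` is the commutator subgroup `⁅P, P⁆`: generators `⁅x, u⁆ ∈ P`, `x ∈ P`: `u x⁻¹ u⁻¹ ∈ P`, so by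
 `fnb_fusion` it is `v x⁻¹ v⁻¹` with `v ∈ P`, and `⁅x, u⁆ = ⁅x, v⁆`. As `P` is a nontrivial `p`-group, it is nilpotent (`IsPGroup.isNilpotent`), so
 solvable, and `⁅P, P⁆ < P` (`IsSolvable.commutator_lt_top_of_nontrivial`). (In terms of `P`: `focalSubgroupOf P = commutator P ≠ ⊤`.)
(2) Mathlib (`Mathlib.GroupTheory.Focal`): `V = Subgroup.transferFocal P : G →* P ⧸ P.focalSubgroupOf` is surjective
 (`Subgroup.transferFocal_surjective`). Let `K = V.ker`, normal in `G`, `|G| = |K| * |P / P*|`, and `|P / P*| = p^j` with `j ≥ 1` (a nontrivial quotient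
 of a `p`-group). So `K` is a proper subgroup, `FN p K` (`FN.sub`), so by induction `K` has a normal subgroup `M` with `p ∤ |M|`,
 `|K| = p^l |M|`. Let `N` = image of `M` in `G`: `|N| = |M|`, `|G| = p^(j + l) |N|`. `N` is normal in `G`: `M` consists exactly of the elements of
 `K` of order prime to `p` (if `x ∈ K` has order prime to `p`, its image in the `p`-group `K / M` is trivial; conversely `p ∤ |M|`), and this set
 is invariant under conjugation by `G`.
-/

set_option autoImplicit false

namespace Pool.H67.CS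

open scoped commutatorElement in
theorem Fnc_focal {G : Type*} [Group G] [Finite G] {p : ℕ} [Fact p.Prime] (h : FN p G)
    (P : Sylow p G) (hP : Nontrivial P) :
    (P : Subgroup G).focalSubgroupOf ≠ ⊤ := by
  have h1 : (P : Subgroup G).focalSubgroupOf ≤ commutator P := by
    rw [Subgroup.focalSubgroupOf_eq_closure, Subgroup.closure_le]
    rintro g ⟨x, hx, u, hg⟩
    have hx' : x⁻¹ ∈ P := inv_mem hx
    have h2 : u * x⁻¹ * u⁻¹ ∈ P := by
      have h3 : u * x⁻¹ * u⁻¹ = x⁻¹ * (g : G) := by
        rw [hg, commutatorElement_def]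
        group
      rw [h3]
      exact mul_mem hx' g.2
    obtain ⟨v, hv, hvx⟩ := fnb_fusion h P x⁻¹ u hx' h2
    have h4 : g = ⁅(⟨x, hx⟩ : P), (⟨v, hv⟩ : P)⁆ := by
      apply Subtype.ext
      rw [hg]
      show ⁅x, u⁆ = x * v * x⁻¹ * v⁻¹
      rw [commutatorElement_def]
      have h5 : x * u * x⁻¹ * u⁻¹ = x * (u * x⁻¹ * u⁻¹) := by group
      rw [h5, ← hvx]
      group
    rw [h4]
    exact Subgroup.commutator_mem_commutator (Subgroup.mem_top _) (Subgroup.mem_top _)
  have hnil : Group.IsNilpotent P := P.2.isNilpotent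
  have h2 : commutator P < ⊤ := Group.IsSolvable.commutator_lt_top_of_nontrivial P
  exact (lt_of_le_of_lt h1 h2).ne

theorem Fnc_main {p : ℕ} [Fact p.Prime] (n : ℕ) : ∀ (G : Type*) [Group G] [Finite G],
    Nat.card G = n → FN p G →
    ∃ N : Subgroup G, N.Normal ∧ ¬ p ∣ Nat.card N ∧ ∃ k, Nat.card G = p ^ k * Nat.card N := by
  induction n using Nat.strong_induction_on with
  | _ n ih =>
    intro G _ _ hn h
    have hp : p.Prime := Fact.out
    by_cases hpG : p ∣ Nat.card G
    · obtain ⟨P⟩ : Nonempty (Sylow p G) := inferInstance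
      have hPne : (P : Subgroup G) ≠ ⊥ := P.ne_bot_of_dvd_card hpG
      have hPnt : Nontrivial P := (Subgroup.nontrivial_iff_ne_bot _).2 hPne
      have hfoc := Fnc_focal h P hPnt
      have hsurj : Function.Surjective (P : Subgroup G).transferFocal :=
        Subgroup.transferFocal_surjective P
      obtain ⟨K, hK⟩ : ∃ K : Subgroup G, K = (P : Subgroup G).transferFocal.ker := ⟨_, rfl⟩
      have hKn : K.Normal := by rw [hK]; infer_instance
      have hQ : IsPGroup p (P ⧸ (P : Subgroup G).focalSubgroupOf) := P.2.to_quotient _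
      obtain ⟨j, hj⟩ := IsPGroup.iff_card.1 hQ
      have hj0 : j ≠ 0 := by
        intro e
        rw [e, pow_zero] at hj
        exact hfoc (Subgroup.index_eq_one.1 hj)
      have hidx : K.index = p ^ j := by
        rw [hK, Subgroup.index_ker, MonoidHom.range_eq_top.2 hsurj, Subgroup.card_top, hj]
      have hcard : Nat.card K * p ^ j = Nat.card G := by
        rw [← hidx]
        exact Subgroup.card_mul_index K
      have hK0 : 0 < Nat.card K := Nat.card_pos
      have hlt : Nat.card K < n := by
        rw [← hn, ← hcard]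
        exact lt_mul_of_one_lt_right hK0 (Nat.one_lt_pow hj0 hp.one_lt)
      obtain ⟨M, hM1, hM2, l, hM3⟩ := ih _ hlt K rfl (FN.sub h K)
      have hchar : ∀ x : K, x ∈ M ↔ ¬ p ∣ orderOf x := by
        intro x
        constructor
        · intro hx hd
          apply hM2
          refine hd.trans ?_
          have h1 : orderOf (⟨x, hx⟩ : M) ∣ Nat.card M := orderOf_dvd_natCard _
          rw [Subgroup.orderOf_mk] at h1
          exact h1
        · intro hx
          have h1 : Nat.card (K ⧸ M) = p ^ l := by
            have h2 := Subgroup.card_mul_index M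
            rw [hM3, mul_comm] at h2
            exact Nat.eq_of_mul_eq_mul_right Nat.card_pos h2
          have h2 : orderOf (x : K ⧸ M) ∣ p ^ l := by
            rw [← h1]
            exact orderOf_dvd_natCard _
          have h3 : orderOf (x : K ⧸ M) ∣ orderOf x :=
            orderOf_map_dvd (QuotientGroup.mk' M) x
          obtain ⟨i, -, hi⟩ := (Nat.dvd_prime_pow hp).1 h2
          have h4 : i = 0 := by
            by_contra h5
            apply hx
            refine dvd_trans ?_ h3
            rw [hi]
            exact dvd_pow_self p h5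
          rw [h4, pow_zero, orderOf_eq_one_iff, QuotientGroup.eq_one_iff] at hi
          exact hi
      refine ⟨M.map K.subtype, ⟨?_⟩, ?_, j + l, ?_⟩
      · rintro _ ⟨m, hm, rfl⟩ g
        have h1 : g * (m : G) * g⁻¹ ∈ K := hKn.conj_mem m m.2 g
        refine ⟨⟨g * (m : G) * g⁻¹, h1⟩, ?_, rfl⟩
        have h2 : orderOf (⟨g * (m : G) * g⁻¹, h1⟩ : K) = orderOf m := by
          rw [Subgroup.orderOf_mk, ← Subgroup.orderOf_coe m]
          have h3 : g * (m : G) * g⁻¹ = MulAut.conj g (m : G) := by simp
          rw [h3]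
          exact MulEquiv.orderOf_eq (MulAut.conj g) (m : G)
        show (⟨g * (m : G) * g⁻¹, h1⟩ : K) ∈ M
        rw [hchar, h2]
        exact (hchar m).1 hm
      · rw [Subgroup.card_subtype]
        exact hM2
      · rw [Subgroup.card_subtype, ← hcard, hM3, pow_add]
        ring
    · refine ⟨⊤, inferInstance, ?_, 0, ?_⟩
      · rw [Subgroup.card_top]
        exact hpG
      · rw [Subgroup.card_top, pow_zero, one_mul]

theorem fnc {G : Type*} [Group G] [Finite G] {p : ℕ} [Fact p.Prime] (h : FN p G) :
    ∃ N : Subgroup G, N.Normal ∧ ¬ p ∣ Nat.card N ∧ ∃ k, Nat.card G = p ^ k * Nat.card N :=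
  Fnc_main _ G rfl h

end Pool.H67.CS
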