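import Mathlib

/-!
# Row Gga (MP_718a21_CS): number of orbits of a normal subgroup of p-power index (100 lines), Mathlib only

`gga`: `V` transitive on `Ω`, `W ≤ V` normalised by `V`, `Nat.card V = p^k * Nat.card W`, `card Ω = p^a * r`, `p ∤ r`. Then `W` has at
most `p^a` orbits.
Proof. For `g ∈ V`: `g (W y) = W (g y)`, so all `W`-orbits have the same size `b` (transitivity of `V`), and their number `n` satisfies
`n * b = card Ω`, so `n ∣ p^a * r`. `V` acts transitively on the set of the `W`-orbits, the stabiliser of the orbit of `y0` contains `W`, so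
`n = |V : Stab| ∣ |V : W| = p^k`. A way without the action on orbits: let `S = {g ∈ V | g y0 ∈ W y0}`; it is a subgroup containing `W`;
the map `V → orbits`, `g ↦ [g y0]` is onto and its fibres are the left cosets of `S` (`[g y0] = [h y0]` iff `h⁻¹ g ∈ S` by normality), so
`n = |V : S|`, which divides `|V| / |W| = p^k`. So `n` is a power of `p` (`Nat.dvd_prime_pow`), it divides `p^a * r` with `p ∤ r`, so it
divides `p^a` (`Nat.Coprime.dvd_of_dvd_mul_right`) and `n ≤ p^a`.
-/

set_option autoImplicit false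

namespace Pool.H67.CS

/-- the action of `V` on the set of `W`-orbits -/
@[reducible] def Gga_act {Ω : Type*} (W V : Subgroup (Equiv.Perm Ω))
    (hnor : ∀ g ∈ V, ∀ x ∈ W, g * x * g⁻¹ ∈ W) :
    MulAction V (MulAction.orbitRel.Quotient W Ω) where
  smul g := Quotient.map' (fun y => (g : Equiv.Perm Ω) y) (by
    intro y z h
    rw [MulAction.orbitRel_apply] at h ⊢
    obtain ⟨w, hw⟩ := h
    refine ⟨⟨(g : Equiv.Perm Ω) * w * (g : Equiv.Perm Ω)⁻¹, hnor _ g.2 _ w.2⟩, ?_⟩
    have h2 : (w : Equiv.Perm Ω) z = y := hw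
    show ((g : Equiv.Perm Ω) * w * (g : Equiv.Perm Ω)⁻¹) ((g : Equiv.Perm Ω) z) = (g : Equiv.Perm Ω) y
    simp [Equiv.Perm.mul_apply, h2])
  one_smul := by
    intro q
    induction q using Quotient.inductionOn' with
    | _ y => rfl
  mul_smul := by
    intro g h q
    induction q using Quotient.inductionOn' with
    | _ y => rfl

theorem Gga_card_orbit {Ω : Type*} [Fintype Ω] (W V : Subgroup (Equiv.Perm Ω))
    (hnor : ∀ g ∈ V, ∀ x ∈ W, g * x * g⁻¹ ∈ W) (htr : ∀ y z, ∃ g ∈ V, g y = z) (y z : Ω) :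
    Nat.card (MulAction.orbit W z) = Nat.card (MulAction.orbit W y) := by
  have key : ∀ y z : Ω, Nat.card (MulAction.orbit W y) ≤ Nat.card (MulAction.orbit W z) := by
    intro y z
    obtain ⟨g, hg, hgy⟩ := htr y z
    apply Nat.card_le_card_of_injective (f := fun t : MulAction.orbit W y =>
      (⟨g t.1, by
        obtain ⟨w, hw⟩ := t.2
        refine ⟨⟨g * w * g⁻¹, hnor _ hg _ w.2⟩, ?_⟩
        have h2 : (w : Equiv.Perm Ω) y = t.1 := hw
        show (g * w * g⁻¹) z = g t.1
        rw [← hgy]
        simp [Equiv.Perm.mul_apply, h2]⟩ : MulAction.orbit W z))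
    intro t t' h
    have h1 : g t.1 = g t'.1 := congrArg Subtype.val h
    exact Subtype.ext (g.injective h1)
  exact le_antisymm (key z y) (key y z)

theorem gga {Ω : Type*} [Fintype Ω] [Nonempty Ω] (p a r : ℕ) (hp : p.Prime) (hr : ¬ p ∣ r)
    (hΩ : Fintype.card Ω = p ^ a * r) (W V : Subgroup (Equiv.Perm Ω)) (hWV : W ≤ V)
    (hnor : ∀ g ∈ V, ∀ x ∈ W, g * x * g⁻¹ ∈ W) (htr : ∀ y z, ∃ g ∈ V, g y = z)
    (hk : ∃ k, Nat.card V = p ^ k * Nat.card W) :
    Nat.card (MulAction.orbitRel.Quotient W Ω) ≤ p ^ a := by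
  classical
  obtain ⟨k, hk⟩ := hk
  obtain ⟨y0⟩ := ‹Nonempty Ω›
  haveI : Finite (MulAction.orbitRel.Quotient W Ω) := Quotient.finite _
  -- first divisibility
  have h1 : Nat.card (MulAction.orbitRel.Quotient W Ω) ∣ p ^ a * r := by
    rw [← hΩ, ← Nat.card_eq_fintype_card, Nat.card_congr (MulAction.selfEquivSigmaOrbits W Ω)]
    haveI : Fintype (MulAction.orbitRel.Quotient W Ω) := Fintype.ofFinite _
    rw [Nat.card_sigma]
    rw [Finset.sum_congr rfl (fun ω _ => Gga_card_orbit W V hnor htr y0 _)]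
    rw [Finset.sum_const, Finset.card_univ, ← Nat.card_eq_fintype_card, smul_eq_mul]
    exact Dvd.intro _ rfl
  -- second divisibility
  have h2 : Nat.card (MulAction.orbitRel.Quotient W Ω) ∣ p ^ k := by
    letI : MulAction V (MulAction.orbitRel.Quotient W Ω) := Gga_act W V hnor
    haveI : MulAction.IsPretransitive V (MulAction.orbitRel.Quotient W Ω) := by
      constructor
      intro x y
      induction x using Quotient.inductionOn' with
      | _ x =>
        induction y using Quotient.inductionOn' with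
        | _ y =>
          obtain ⟨g, hg, hgx⟩ := htr x y
          refine ⟨⟨g, hg⟩, ?_⟩
          show (Quotient.mk'' (g x) : MulAction.orbitRel.Quotient W Ω) = Quotient.mk'' y
          rw [hgx]
    have hidx := MulAction.index_stabilizer_of_transitive V
      (Quotient.mk'' y0 : MulAction.orbitRel.Quotient W Ω)
    rw [← hidx]
    have hle : W.subgroupOf V ≤ MulAction.stabilizer V
        (Quotient.mk'' y0 : MulAction.orbitRel.Quotient W Ω) := by
      intro g hg
      rw [Subgroup.mem_subgroupOf] at hg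
      rw [MulAction.mem_stabilizer_iff]
      show (Quotient.mk'' ((g : Equiv.Perm Ω) y0) : MulAction.orbitRel.Quotient W Ω) = Quotient.mk'' y0
      apply Quotient.sound'
      exact ⟨⟨g, hg⟩, rfl⟩
    have h3 := Subgroup.index_dvd_of_le hle
    have h4 : (W.subgroupOf V).index * Nat.card W = Nat.card V := by
      have := Subgroup.card_mul_index (W.subgroupOf V)
      rw [Nat.card_congr (Subgroup.subgroupOfEquivOfLe hWV).toEquiv] at this
      rw [mul_comm]; exact this
    have hWpos : 0 < Nat.card W := Nat.card_pos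
    have h5 : (W.subgroupOf V).index = p ^ k := by
      rw [hk] at h4
      exact Nat.eq_of_mul_eq_mul_right hWpos h4
    rwa [h5] at h3
  obtain ⟨j, _, hj⟩ := (Nat.dvd_prime_pow hp).1 h2
  rw [hj] at h1 ⊢
  have hcop : Nat.Coprime (p ^ j) r := Nat.Coprime.pow_left j ((Nat.Prime.coprime_iff_not_dvd hp).2 hr)
  have h6 := Nat.Coprime.dvd_of_dvd_mul_right hcop h1
  exact Nat.le_of_dvd (pow_pos hp.pos a) h6

end Pool.H67.CS
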