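import Pool.Agent.H67.CS.Pm

/-!
# Row Opp (MP_718a21_CS): the p'-parts of two permutable subgroups (170 lines)

Setting: `p` prime, `q = p ^ α * r`, `p ∤ r`, `A`, `B` permutable subgroups of order `q` with `A ⊓ B = ⊥`, `N ≤ A ⊔ B`
normalised by `A ⊔ B`, of order `r ^ 2`. Then `Nat.card (A ⊔ B) = q ^ 2` (`Pm.card`).
`Op p A` = the subgroup generated by the elements of `A` of order prime to `p`.
* `opp_mem`: for `x ∈ A ⊔ B`: `x ∈ N` iff `p ∤ orderOf x`. (→) the order divides `r ^ 2`. (←) the index of `N` in `A ⊔ B` is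
 `p ^ (2 α)`, so `x ^ (p ^ (2 α)) ∈ N` (in the quotient group `(A ⊔ B) / N`, `Subgroup.pow_index_mem` for the normal subgroup
 `N.subgroupOf (A ⊔ B)`), and `x` is a power of `x ^ (p ^ (2 α))` because the order of `x` is prime to `p` (Bezout,
 e.g. `pow_coprime`/`orderOf` and `Nat.Coprime`, `Subgroup.mem_of_pow...`).
* `opp_eq`: `Op p A = A ⊓ N`: the generators are in `A ⊓ N`, and every element of `A ⊓ N` is a generator.
* `opp_card`: `Nat.card (A ⊓ N) = r`: it divides `q = p ^ α * r` and `r ^ 2` (prime to `p`), so it divides `r`. On the other hand the index of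
 `A ⊓ N` in `A` is at most (divides) the index of `N` in `A ⊔ B`, so it is a power of `p` (`A / (A ⊓ N) ≅ A N / N`; e.g.
 `Subgroup.relIndex_inf_le`, `relIndex_sup_...`, or: every element of `A` has its `p ^ (2 α)`-th power in `A ⊓ N`, so the quotient
 `A / (A ⊓ N)` is a `p`-group, `IsPGroup.iff_card`). So `Nat.card (A ⊓ N) = r`.
* `opp_mul`: every `x ∈ N` is `a * b` with `a ∈ Op p A`, `b ∈ Op p B`: the products are `r * r = r ^ 2` different elements
 (`A ⊓ B = ⊥`) of `N`, and `Nat.card N = r ^ 2`.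
* `opp_pm`: `Pm (Op p A) (Op p B)`: `a b ∈ N`; by `opp_mul` for `B, A` (`A ⊔ B = B ⊔ A`) it is `b' a'`.
* `opp_conj`: for `g ∈ A`, `x ∈ Op p B`: `g x g⁻¹ ∈ N`, so it is in `Op p A ⊔ Op p B`.
-/

set_option autoImplicit false

namespace Pool.H67.CS

variable {G : Type*} [Group G] [Finite G]

/-- the subgroup generated by the elements of order prime to `p` -/
def Op (p : ℕ) (A : Subgroup G) : Subgroup G := Subgroup.closure {x | x ∈ A ∧ ¬ p ∣ orderOf x}

/-- the hypotheses on two permutable subgroups -/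
structure Two (p α r : ℕ) (A B N : Subgroup G) : Prop where
  prime : p.Prime
  ndvd : ¬ p ∣ r
  pm : Pm A B
  cardA : Nat.card A = p ^ α * r
  cardB : Nat.card B = p ^ α * r
  inf : A ⊓ B = ⊥
  le : N ≤ A ⊔ B
  nor : ∀ g ∈ A ⊔ B, ∀ x ∈ N, g * x * g⁻¹ ∈ N
  cardN : Nat.card N = r ^ 2

theorem Two.symm {p α r : ℕ} {A B N : Subgroup G} (h : Two p α r A B N) : Two p α r B A N where
  prime := h.prime
  ndvd := h.ndvd
  pm := h.pm.symm
  cardA := h.cardB
  cardB := h.cardA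
  inf := by rw [inf_comm]; exact h.inf
  le := by rw [sup_comm]; exact h.le
  nor := by rw [sup_comm]; exact h.nor
  cardN := h.cardN

theorem Opp_cardT {p α r : ℕ} {A B N : Subgroup G} (h : Two p α r A B N) :
    Nat.card (A ⊔ B : Subgroup G) = (p ^ α * r) ^ 2 := by
  have h1 := h.pm.card
  rw [h.inf, h.cardA, h.cardB, Subgroup.card_bot, mul_one] at h1
  rw [h1, sq]

theorem Opp_r {p α r : ℕ} {A B N : Subgroup G} (h : Two p α r A B N) : 0 < r := by
  have h1 : 0 < Nat.card A := Nat.card_pos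
  rw [h.cardA] at h1
  exact Nat.pos_of_mul_pos_left h1

omit [Finite G] in
theorem Opp_normal {p α r : ℕ} {A B N : Subgroup G} (h : Two p α r A B N) :
    (N.subgroupOf (A ⊔ B)).Normal := by
  constructor
  rintro ⟨x, hx⟩ hxN ⟨g, hg⟩
  rw [Subgroup.mem_subgroupOf] at hxN ⊢
  exact h.nor g hg x hxN

theorem Opp_index {p α r : ℕ} {A B N : Subgroup G} (h : Two p α r A B N) :
    (N.subgroupOf (A ⊔ B)).index = p ^ (2 * α) := by
  have h1 := Subgroup.card_mul_index (N.subgroupOf (A ⊔ B))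
  rw [Nat.card_congr (Subgroup.subgroupOfEquivOfLe h.le).toEquiv, h.cardN, Opp_cardT h] at h1
  have hr := Opp_r h
  have h2 : r ^ 2 * (N.subgroupOf (A ⊔ B)).index = r ^ 2 * p ^ (2 * α) := by
    rw [h1]
    ring
  exact Nat.eq_of_mul_eq_mul_left (by positivity) h2

theorem opp_mem {p α r : ℕ} {A B N : Subgroup G} (h : Two p α r A B N) {x : G} (hx : x ∈ A ⊔ B) :
    x ∈ N ↔ ¬ p ∣ orderOf x := by
  constructor
  · intro hxN hp
    have h1 : orderOf x ∣ r ^ 2 := by
      rw [← h.cardN]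
      exact Subgroup.orderOf_dvd_natCard N hxN
    exact h.ndvd (h.prime.dvd_of_dvd_pow (hp.trans h1))
  · intro hp
    have hco : (p ^ (2 * α)).Coprime (orderOf x) :=
      Nat.Coprime.pow_left _ ((Nat.Prime.coprime_iff_not_dvd h.prime).2 hp)
    obtain ⟨m, hm⟩ := exists_pow_eq_self_of_coprime hco
    have hn := Opp_normal h
    have h1 := Subgroup.pow_index_mem (N.subgroupOf (A ⊔ B)) ⟨x, hx⟩
    rw [Opp_index h, Subgroup.mem_subgroupOf] at h1
    rw [← hm]
    exact N.pow_mem h1 m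

theorem opp_eq {p α r : ℕ} {A B N : Subgroup G} (h : Two p α r A B N) : Op p A = A ⊓ N := by
  apply le_antisymm
  · rw [Op, Subgroup.closure_le]
    rintro x ⟨hxA, hxp⟩
    exact ⟨hxA, (opp_mem h (le_sup_left (a := A) (b := B) hxA)).2 hxp⟩
  · rintro x ⟨hxA, hxN⟩
    exact Subgroup.subset_closure
      ⟨hxA, (opp_mem h (le_sup_left (a := A) (b := B) hxA)).1 hxN⟩

theorem opp_card {p α r : ℕ} {A B N : Subgroup G} (h : Two p α r A B N) : Nat.card (Op p A) = r := by
  rw [opp_eq h]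
  have hn := Opp_normal h
  have hr : r.Coprime p := ((Nat.Prime.coprime_iff_not_dvd h.prime).2 h.ndvd).symm
  apply Nat.dvd_antisymm
  · have h1 : Nat.card (A ⊓ N : Subgroup G) ∣ p ^ α * r := by
      rw [← h.cardA]
      exact Subgroup.card_dvd_of_le inf_le_left
    have h2 : Nat.card (A ⊓ N : Subgroup G) ∣ r ^ 2 := by
      rw [← h.cardN]
      exact Subgroup.card_dvd_of_le inf_le_right
    refine Nat.Coprime.dvd_of_dvd_mul_left ?_ h1
    exact Nat.Coprime.coprime_dvd_left h2 (Nat.Coprime.pow 2 α hr)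
  · have h1 : N.relIndex A ∣ p ^ (2 * α) := by
      rw [← Opp_index h, ← Subgroup.relIndex_subgroupOf (le_sup_left : A ≤ A ⊔ B)]
      exact Subgroup.relIndex_dvd_index_of_normal _ _
    have h2 : Nat.card (N ⊓ A : Subgroup G) * N.relIndex A = p ^ α * r := by
      have h3 := Subgroup.relIndex_inf_mul_relIndex (⊥ : Subgroup G) N A
      rw [bot_inf_eq, Subgroup.relIndex_bot_left, Subgroup.relIndex_bot_left, h.cardA] at h3
      exact h3
    rw [inf_comm]
    obtain ⟨k, -, hk⟩ := (Nat.dvd_prime_pow h.prime).1 h1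
    refine Nat.Coprime.dvd_of_dvd_mul_right (Nat.Coprime.pow_right k hr) (n := p ^ k) ?_
    rw [← hk, h2]
    exact Dvd.intro_left _ rfl

theorem opp_mul {p α r : ℕ} {A B N : Subgroup G} (h : Two p α r A B N) {x : G} (hx : x ∈ N) :
    ∃ a ∈ Op p A, ∃ b ∈ Op p B, x = a * b := by
  have hA := opp_eq h
  have hB := opp_eq h.symm
  let f : ↥(Op p A) × ↥(Op p B) → N := fun z =>
    ⟨z.1.1 * z.2.1, N.mul_mem (hA.le z.1.2).2 (hB.le z.2.2).2⟩
  have hinj : Function.Injective f := by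
    rintro ⟨⟨a, ha⟩, ⟨b, hb⟩⟩ ⟨⟨a', ha'⟩, ⟨b', hb'⟩⟩ hab
    have h1 : a * b = a' * b' := congrArg Subtype.val hab
    rw [hA] at ha ha'
    rw [hB] at hb hb'
    have h2 : a'⁻¹ * a = b' * b⁻¹ := by
      rw [inv_mul_eq_iff_eq_mul, ← mul_assoc, ← h1, mul_assoc, mul_inv_cancel, mul_one]
    have h3 : a'⁻¹ * a ∈ A ⊓ B :=
      ⟨A.mul_mem (A.inv_mem ha'.1) ha.1, by rw [h2]; exact B.mul_mem hb'.1 (B.inv_mem hb.1)⟩
    rw [h.inf, Subgroup.mem_bot] at h3
    have h4 : a = a' := (inv_mul_eq_one.1 h3).symm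
    have h5 : b = b' := by
      rw [h4] at h1
      exact mul_left_cancel h1
    subst h4 h5
    rfl
  have hbij := hinj.bijective_of_nat_card_le (by
    rw [Nat.card_prod, opp_card h, opp_card h.symm, h.cardN, sq])
  obtain ⟨⟨a, b⟩, hab⟩ := hbij.2 ⟨x, hx⟩
  exact ⟨a.1, a.2, b.1, b.2, (congrArg Subtype.val hab).symm⟩

theorem opp_pm {p α r : ℕ} {A B N : Subgroup G} (h : Two p α r A B N) : Pm (Op p A) (Op p B) := by
  intro a ha b hb
  apply opp_mul h.symm
  rw [opp_eq h] at ha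
  rw [opp_eq h.symm] at hb
  exact N.mul_mem ha.2 hb.2

theorem opp_conj {p α r : ℕ} {A B N : Subgroup G} (h : Two p α r A B N) {g x : G} (hg : g ∈ A)
    (hx : x ∈ Op p B) : g * x * g⁻¹ ∈ Op p A ⊔ Op p B := by
  rw [opp_eq h.symm] at hx
  obtain ⟨a, ha, b, hb, hab⟩ := opp_mul h (h.nor g (le_sup_left (a := A) (b := B) hg) x hx.2)
  rw [hab]
  exact Subgroup.mul_mem_sup ha hb

end Pool.H67.CS
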