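import Pool.Agent.H67.CS.Pmb
import Pool.Agent.H67.CS.Opp
import Pool.Agent.H67.CS.Gga

/-!
# Row Ggm (MP_718a21_CS): few permutable groups with normal p-complements (200 lines)

`ggm`: `A m` (`m ∈ ι`) pairwise permutable groups of permutations of `Ω`, `card Ω = q^4`, `q = p^α r`, `p ∤ r`, all of order `q`, trivial
intersections, `A m ⊔ A n` acts freely on `Ω` and has a normal subgroup of order `r^2`, all together transitive.
Then `card ι < (p^α)^4`.
Proof. If `ι` has at most one element: `card ι ≤ 1 < p^(4 α)`. Otherwise every `m` has a partner `n ≠ m`. Write `O m = Op p (A m)`.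
(1) `Nat.card (O m) = r` (`opp_card`), `O m ≤ A m`. `Pm (O m) (O n)` for all `m, n` (`opp_pm`, `Pm.refl`). Let `W = ⨆ m, O m`.
 `p ∤ Nat.card W` (`pmb_coprime`).
(2) `g ∈ A m`, `x ∈ W` ⇒ `g x g⁻¹ ∈ W`: for `x ∈ O n`, `n ≠ m`: `opp_conj`; for `x ∈ O m = A m ⊓ N`: it is in `A m ⊓ N = O m` (`opp_eq`).
 (Induction over the generators of `W`; conjugation by `g` is a homomorphism: `W.map (MulAut.conj g) ≤ W`, `Subgroup.map_iSup`.)
 So `Pm W (A m)`: `w g = g (g⁻¹ w g)`. Let `V = W ⊔ ⨆ m, A m`. `Nat.card (A m) = p^α * r`, `Nat.card (A m ⊓ W) = r * p^j'`: since `O m ≤ A m ⊓ W`, `r`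
 divides `Nat.card (A m ⊓ W)`, which divides `p^α * r`; so `Nat.card (A m) = p^k * Nat.card (A m ⊓ W)` for some `k`. `pmb_pow`:
 `Nat.card V = p^k * Nat.card W`.
(3) `V` acts transitively on `Ω` and normalises `W` (closure induction), so by `gga` (with `a = 4 α`, `r ^ 4`) the number `n` of the
 `W`-orbits is at most `p^(4 α)`.
(4) Fix `y0`. For each `m` choose `z m ∈ A m` of order `p` (Cauchy, `α ≥ 1`). The orbits `W (z m y0)` and `W y0` are pairwise
 different: let `D = {g ∈ A m ⊔ A n | g y0 ∈ W y0}`, a subgroup, acting freely on the set `W y0`, whose size divides `Nat.card W`, so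
 it is prime to `p`; so `Nat.card D` divides it and the elements of `D` have order prime to `p`, so `D ≤ N` (`opp_mem`). If
 `W (z m y0) = W (z n y0)`, `m ≠ n`, then `z m y0 ∈ W (z n y0) = z n (W y0)`, so `(z n)⁻¹ z m ∈ D ≤ N`, `(z n)⁻¹ z m = b a` with `b ∈ O n`,
 `a ∈ O m` (`opp_mul`), so `z m a⁻¹ = z n b ∈ A m ⊓ A n = ⊥`, so `z m = a` has order prime to `p`, contradiction. If
 `W (z m y0) = W y0`: `z m ∈ D`, the same contradiction. So `n ≥ 1 + card ι`, `card ι < n ≤ p^(4 α)`.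
 (So the map `Option ι → orbitRel.Quotient W Ω`, `none ↦ [y0]`, `m ↦ [z m y0]`, is injective.)
-/

set_option autoImplicit false

namespace Pool.H67.CS

private theorem Ggm_i1 {Ω : Type*} (f : Equiv.Perm Ω) (x : Ω) : f⁻¹ (f x) = x :=
  f.symm_apply_apply x

private theorem Ggm_i2 {Ω : Type*} (f : Equiv.Perm Ω) (x : Ω) : f (f⁻¹ x) = x :=
  f.apply_symm_apply x

private theorem Ggm_star {Ω : Type*} [Finite Ω] (p : ℕ) (hp : p.Prime)
    (W : Subgroup (Equiv.Perm Ω)) (hW : ¬ p ∣ Nat.card W) (B : Subgroup (Equiv.Perm Ω))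
    (hB : ∀ g ∈ B, ∀ x ∈ W, g * x * g⁻¹ ∈ W) (hfree : ∀ g ∈ B, ∀ y, g y = y → g = 1)
    (g : Equiv.Perm Ω) (hg : g ∈ B) (y0 : Ω) (hy : ∃ w ∈ W, w y0 = g y0) : ¬ p ∣ orderOf g := by
  classical
  have hpF : Fact p.Prime := ⟨hp⟩
  rintro ⟨k, hk⟩
  obtain ⟨S, hS⟩ : ∃ S : Set Ω, S = MulAction.orbit W y0 := ⟨_, rfl⟩
  have hmemS : ∀ y, y ∈ S ↔ ∃ w ∈ W, w y0 = y := by
    intro y
    rw [hS, MulAction.mem_orbit_iff]
    constructor
    · rintro ⟨w, hw⟩
      exact ⟨w, w.2, hw⟩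
    · rintro ⟨w, hw, h⟩
      exact ⟨⟨w, hw⟩, h⟩
  have hgS : ∀ y ∈ S, g y ∈ S := by
    intro y hyS
    obtain ⟨w, hw, rfl⟩ := (hmemS y).1 hyS
    obtain ⟨w', hw', hw'y⟩ := hy
    refine (hmemS _).2 ⟨g * w * g⁻¹ * w', W.mul_mem (hB g hg w hw) hw', ?_⟩
    rw [Equiv.Perm.mul_apply, hw'y, Equiv.Perm.mul_apply, Equiv.Perm.mul_apply,
      Ggm_i1]
  have hginv : g⁻¹ y0 ∈ S := by
    obtain ⟨w', hw', hw'y⟩ := hy
    refine (hmemS _).2 ⟨(g⁻¹ * w' * g⁻¹⁻¹)⁻¹, W.inv_mem (hB g⁻¹ (B.inv_mem hg) w' hw'), ?_⟩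
    rw [Equiv.Perm.inv_eq_iff_eq, Equiv.Perm.mul_apply, Equiv.Perm.mul_apply, inv_inv,
      Ggm_i2, hw'y, Ggm_i1]
  have hgiS : ∀ y ∈ S, g⁻¹ y ∈ S := by
    intro y hyS
    obtain ⟨w, hw, rfl⟩ := (hmemS y).1 hyS
    obtain ⟨w', hw', hw'y⟩ := (hmemS _).1 hginv
    refine (hmemS _).2 ⟨g⁻¹ * w * g⁻¹⁻¹ * w', W.mul_mem (hB g⁻¹ (B.inv_mem hg) w hw) hw', ?_⟩
    rw [Equiv.Perm.mul_apply, hw'y, Equiv.Perm.mul_apply, Equiv.Perm.mul_apply, inv_inv,
      Ggm_i2]
  obtain ⟨σ, hσ⟩ : ∃ σ : Equiv.Perm S, ∀ y : S, ((σ y : S) : Ω) = g y :=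
    ⟨⟨fun y => ⟨g y, hgS y y.2⟩, fun y => ⟨g⁻¹ y, hgiS y y.2⟩,
      fun y => Subtype.ext (Ggm_i1 g _),
      fun y => Subtype.ext (Ggm_i2 g _)⟩, fun _ => rfl⟩
  have hσp : ∀ (j : ℕ) (y : S), (((σ ^ j) y : S) : Ω) = (g ^ j) y := by
    intro j
    induction j with
    | zero => intro y; rfl
    | succ j ih =>
      intro y
      rw [pow_succ, pow_succ, Equiv.Perm.mul_apply, Equiv.Perm.mul_apply, ih, hσ]
  have hfin : Finite S := inferInstance
  have hft : Fintype S := Fintype.ofFinite S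
  have hcard : ¬ p ∣ Fintype.card S := by
    intro h
    apply hW
    rw [← Nat.card_eq_fintype_card] at h
    refine h.trans ?_
    rw [hS, Nat.card_congr (MulAction.orbitEquivQuotientStabilizer W y0)]
    exact Subgroup.card_quotient_dvd_card _
  have h1 : (σ ^ k) ^ p ^ 1 = 1 := by
    rw [pow_one, ← pow_mul, mul_comm, ← hk]
    ext y
    rw [hσp, pow_orderOf_eq_one]
    rfl
  obtain ⟨a, ha⟩ := Equiv.Perm.exists_fixed_point_of_prime hcard h1
  have h2 : (g ^ k) a = a := by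
    rw [← hσp, ha]
  have h3 := hfree (g ^ k) (B.pow_mem hg k) a h2
  have h4 : 0 < orderOf g := orderOf_pos g
  have h5 : 0 < k := by
    rcases Nat.eq_zero_or_pos k with h | h
    · rw [h, mul_zero] at hk
      omega
    · exact h
  have h6 := Nat.le_of_dvd h5 (orderOf_dvd_of_pow_eq_one h3)
  have h7 := hp.two_le
  rw [hk] at h6
  nlinarith

theorem ggm {Ω ι : Type*} [Fintype Ω] [Fintype ι] (p α r : ℕ) (hp : p.Prime) (hα : 1 ≤ α) (hr : ¬ p ∣ r)
    (hΩ : Fintype.card Ω = (p ^ α * r) ^ 4) (A : ι → Subgroup (Equiv.Perm Ω))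
    (hA : ∀ m, Nat.card (A m) = p ^ α * r) (hpm : ∀ m n, Pm (A m) (A n))
    (hfree : ∀ m n, m ≠ n → ∀ g ∈ A m ⊔ A n, ∀ y, g y = y → g = 1)
    (hinf : ∀ m n, m ≠ n → A m ⊓ A n = ⊥)
    (htr : ∀ y z, ∃ g ∈ (⨆ m, A m : Subgroup (Equiv.Perm Ω)), g y = z)
    (hnil : ∀ m n, m ≠ n → ∃ N ≤ A m ⊔ A n, (∀ g ∈ A m ⊔ A n, ∀ x ∈ N, g * x * g⁻¹ ∈ N) ∧
      Nat.card N = r ^ 2) :
    Fintype.card ι < (p ^ α) ^ 4 := by
  classical
  have hfinP : Finite (Equiv.Perm Ω) := inferInstance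
  have hpow2 : 2 ≤ p ^ α := by
    calc 2 ≤ p := hp.two_le
      _ = p ^ 1 := (pow_one p).symm
      _ ≤ p ^ α := Nat.pow_le_pow_right hp.pos hα
  have hr0 : 0 < r := by
    rcases Nat.eq_zero_or_pos r with h | h
    · exact absurd (h ▸ dvd_zero p) hr
    · exact h
  by_cases hι : Fintype.card ι ≤ 1
  · refine lt_of_le_of_lt hι ?_
    exact Nat.one_lt_pow (by norm_num) (by omega)
  have hnt : Nontrivial ι := Fintype.one_lt_card_iff_nontrivial.1 (by omega)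
  have hpart : ∀ m : ι, ∃ n, m ≠ n := fun m => by
    obtain ⟨n, hn⟩ := exists_ne m
    exact ⟨n, hn.symm⟩
  have hTwo : ∀ m n, m ≠ n → ∃ N, Two p α r (A m) (A n) N := by
    intro m n hmn
    obtain ⟨N, hle, hnor, hc⟩ := hnil m n hmn
    exact ⟨N, ⟨hp, hr, hpm m n, hA m, hA n, hinf m n hmn, hle, hnor, hc⟩⟩
  -- the groups of order `r`
  obtain ⟨O, hO⟩ : ∃ O : ι → Subgroup (Equiv.Perm Ω), ∀ m, O m = Op p (A m) := ⟨_, fun _ => rfl⟩
  have hOcard : ∀ m, Nat.card (O m) = r := by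
    intro m
    obtain ⟨n, hmn⟩ := hpart m
    obtain ⟨N, h⟩ := hTwo m n hmn
    rw [hO]
    exact opp_card h
  have hOle : ∀ m, O m ≤ A m := by
    intro m
    rw [hO, Op, Subgroup.closure_le]
    exact fun x hx => hx.1
  have hOpm : ∀ m n, Pm (O m) (O n) := by
    intro m n
    by_cases hmn : m = n
    · rw [hmn]
      exact Pm.refl _
    · obtain ⟨N, h⟩ := hTwo m n hmn
      rw [hO, hO]
      exact opp_pm h
  obtain ⟨W, hW⟩ : ∃ W : Subgroup (Equiv.Perm Ω), W = ⨆ m, O m := ⟨_, rfl⟩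
  have hOW : ∀ m, O m ≤ W := fun m => by
    rw [hW]
    exact le_iSup O m
  have hWp : ¬ p ∣ Nat.card W := by
    rw [hW]
    exact pmb_coprime p hp O hOpm (fun m => by rw [hOcard]; exact hr)
  have hconj : ∀ m, ∀ g ∈ A m, ∀ x ∈ W, g * x * g⁻¹ ∈ W := by
    intro m g hg x hx
    rw [hW] at hx
    refine Subgroup.iSup_induction O (C := fun x => g * x * g⁻¹ ∈ W) hx ?_ ?_ ?_
    · intro n x hx
      by_cases hmn : m = n
      · obtain ⟨k, hmk⟩ := hpart m
        obtain ⟨N, h⟩ := hTwo m k hmk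
        apply hOW m
        rw [← hmn, hO, opp_eq h] at hx
        rw [hO, opp_eq h]
        exact ⟨(A m).mul_mem ((A m).mul_mem hg hx.1) ((A m).inv_mem hg),
          h.nor g (Subgroup.mem_sup_left hg) x hx.2⟩
      · obtain ⟨N, h⟩ := hTwo m n hmn
        rw [hO] at hx
        have h1 := opp_conj h hg hx
        rw [← hO, ← hO] at h1
        exact (sup_le (hOW m) (hOW n)) h1
    · rw [mul_one, mul_inv_cancel]
      exact W.one_mem
    · intro x y hx hy
      have h1 : g * (x * y) * g⁻¹ = (g * x * g⁻¹) * (g * y * g⁻¹) := by group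
      rw [h1]
      exact W.mul_mem hx hy
  have hPmW : ∀ m, Pm W (A m) := by
    intro m w hw g hg
    refine ⟨g, hg, g⁻¹ * w * g⁻¹⁻¹, hconj m g⁻¹ ((A m).inv_mem hg) w hw, ?_⟩
    group
  obtain ⟨V, hV⟩ : ∃ V : Subgroup (Equiv.Perm Ω), V = W ⊔ ⨆ m, A m := ⟨_, rfl⟩
  have hAV : ∀ m, A m ≤ V := fun m => by
    rw [hV]
    exact (le_iSup A m).trans le_sup_right
  have hWV : W ≤ V := by
    rw [hV]
    exact le_sup_left
  have hcardA : ∀ m, ∃ k, Nat.card (A m) = p ^ k * Nat.card (A m ⊓ W : Subgroup (Equiv.Perm Ω)) := by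
    intro m
    have h1 : r ∣ Nat.card (A m ⊓ W : Subgroup (Equiv.Perm Ω)) := by
      rw [← hOcard m]
      exact Subgroup.card_dvd_of_le (le_inf (hOle m) (hOW m))
    have h2 : Nat.card (A m ⊓ W : Subgroup (Equiv.Perm Ω)) ∣ p ^ α * r := by
      rw [← hA m]
      exact Subgroup.card_dvd_of_le inf_le_left
    obtain ⟨e, he⟩ := h1
    rw [he, mul_comm (p ^ α) r] at h2
    have h3 : e ∣ p ^ α := Nat.dvd_of_mul_dvd_mul_left hr0 h2
    obtain ⟨j, hj, hej⟩ := (Nat.dvd_prime_pow hp).1 h3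
    refine ⟨α - j, ?_⟩
    rw [hA m, he, hej]
    have h4 : p ^ α = p ^ (α - j) * p ^ j := by
      rw [← pow_add, Nat.sub_add_cancel hj]
    rw [h4]
    ring
  have hVk := pmb_pow p hp W A hPmW hpm hcardA
  rw [← hV] at hVk
  -- `V` normalises `W`
  obtain ⟨H, hH⟩ : ∃ H : Subgroup (Equiv.Perm Ω), ∀ g, g ∈ H ↔
      ∀ x, x ∈ W ↔ g * x * g⁻¹ ∈ W := by
    refine ⟨Subgroup.mk (Submonoid.mk (Subsemigroup.mk {g | ∀ x, x ∈ W ↔ g * x * g⁻¹ ∈ W} ?_) ?_)
      ?_, fun g => Iff.rfl⟩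
    · intro a b ha hb x
      have h1 : a * b * x * (a * b)⁻¹ = a * (b * x * b⁻¹) * a⁻¹ := by group
      rw [h1, ← ha, ← hb]
    · intro x
      rw [one_mul, inv_one, mul_one]
    · intro a ha x
      have h1 : a * (a⁻¹ * x * a⁻¹⁻¹) * a⁻¹ = x := by group
      rw [ha (a⁻¹ * x * a⁻¹⁻¹), h1]
  have hAH : ∀ m, A m ≤ H := by
    intro m g hg
    refine (hH g).2 fun x => ⟨hconj m g hg x, fun h => ?_⟩
    have h1 := hconj m g⁻¹ ((A m).inv_mem hg) _ h
    have h2 : g⁻¹ * (g * x * g⁻¹) * g⁻¹⁻¹ = x := by group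
    rwa [h2] at h1
  have hWH : W ≤ H := by
    intro g hg
    refine (hH g).2 fun x => ⟨fun h => W.mul_mem (W.mul_mem hg h) (W.inv_mem hg), fun h => ?_⟩
    have h1 := W.mul_mem (W.mul_mem (W.inv_mem hg) h) hg
    have h2 : g⁻¹ * (g * x * g⁻¹) * g = x := by group
    rwa [h2] at h1
  have hVH : V ≤ H := by
    rw [hV]
    exact sup_le hWH (iSup_le hAH)
  have hnor : ∀ g ∈ V, ∀ x ∈ W, g * x * g⁻¹ ∈ W := fun g hg x hx => ((hH g).1 (hVH hg) x).1 hx
  have hΩpos : 0 < Fintype.card Ω := by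
    rw [hΩ]
    have : 0 < p ^ α * r := Nat.mul_pos (by omega) hr0
    positivity
  have hΩne : Nonempty Ω := Fintype.card_pos_iff.1 hΩpos
  have horb := gga p (4 * α) (r ^ 4) hp (fun h => hr (hp.dvd_of_dvd_pow h))
    (by rw [hΩ, mul_pow, ← pow_mul, mul_comm α 4]) W V hWV hnor
    (fun y z => by
      obtain ⟨g, hg, h⟩ := htr y z
      refine ⟨g, ?_, h⟩
      rw [hV]
      exact Subgroup.mem_sup_right hg) hVk
  obtain ⟨y0⟩ := hΩne
  have hpF : Fact p.Prime := ⟨hp⟩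
  have hz : ∀ m, ∃ z ∈ A m, orderOf z = p := by
    intro m
    have h1 : p ∣ Nat.card (A m) := by
      rw [hA m]
      exact (dvd_pow_self p (by omega)).mul_right r
    obtain ⟨z, hz⟩ := exists_prime_orderOf_dvd_card' p h1
    exact ⟨z, z.2, by rw [Subgroup.orderOf_coe]; exact hz⟩
  choose z hzA hzo using hz
  have hstar : ∀ m n, m ≠ n → ∀ g ∈ A m ⊔ A n, (∃ w ∈ W, w y0 = g y0) → ¬ p ∣ orderOf g := by
    intro m n hmn g hg hy
    exact Ggm_star p hp W hWp (A m ⊔ A n)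
      (fun g hg x hx => hnor g (sup_le (hAV m) (hAV n) hg) x hx) (hfree m n hmn) g hg y0 hy
  have horbit : ∀ a b : Ω, (Quotient.mk'' a : MulAction.orbitRel.Quotient W Ω) = Quotient.mk'' b →
      ∃ w ∈ W, w b = a := by
    intro a b h
    have h1 : MulAction.orbitRel W Ω a b := Quotient.eq''.1 h
    rw [MulAction.orbitRel_apply, MulAction.mem_orbit_iff] at h1
    obtain ⟨w, hw⟩ := h1
    exact ⟨w, w.2, hw⟩
  have hne0 : ∀ m, ¬ ∃ w ∈ W, w y0 = z m y0 := by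
    intro m h
    obtain ⟨n, hmn⟩ := hpart m
    apply hstar m n hmn (z m) (Subgroup.mem_sup_left (hzA m)) h
    rw [hzo]
  have hinj : Function.Injective (fun o : Option ι =>
      (Quotient.mk'' (o.elim y0 (fun m => z m y0)) : MulAction.orbitRel.Quotient W Ω)) := by
    intro o o' h
    cases o with
    | none =>
      cases o' with
      | none => rfl
      | some n =>
        exfalso
        exact hne0 n (horbit _ _ h.symm |> fun ⟨w, hw, h⟩ => ⟨w, hw, h⟩)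
    | some m =>
      cases o' with
      | none =>
        exfalso
        exact hne0 m (horbit _ _ h |> fun ⟨w, hw, h⟩ => ⟨w, hw, h⟩)
      | some n =>
        by_contra hcon
        have hmn : m ≠ n := fun h => hcon (by rw [h])
        obtain ⟨w, hw, hwy⟩ := horbit _ _ h
        have hwy : w (z n y0) = z m y0 := hwy
        obtain ⟨N, hN⟩ := hTwo m n hmn
        have hgm : (z n)⁻¹ * z m ∈ A m ⊔ A n :=
          (A m ⊔ A n).mul_mem ((A m ⊔ A n).inv_mem (Subgroup.mem_sup_right (hzA n)))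
            (Subgroup.mem_sup_left (hzA m))
        have h1 : ¬ p ∣ orderOf ((z n)⁻¹ * z m) := by
          refine hstar m n hmn _ hgm ⟨(z n)⁻¹ * w * (z n)⁻¹⁻¹,
            hconj n _ ((A n).inv_mem (hzA n)) w hw, ?_⟩
          rw [Equiv.Perm.mul_apply, Equiv.Perm.mul_apply, inv_inv, hwy, Equiv.Perm.mul_apply]
        have h2 : (z n)⁻¹ * z m ∈ N := (opp_mem hN hgm).2 h1
        obtain ⟨a, ha, b, hb, hab⟩ := opp_mul hN.symm h2
        rw [← hO] at ha hb
        have h3 : z m * b⁻¹ = z n * a := by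
          have h4 : z m = z n * (a * b) := by rw [← hab]; group
          rw [h4]
          group
        have h5 : z m * b⁻¹ ∈ A m ⊓ A n := by
          refine ⟨(A m).mul_mem (hzA m) ((A m).inv_mem (hOle m hb)), ?_⟩
          rw [h3]
          exact (A n).mul_mem (hzA n) (hOle n ha)
        rw [hinf m n hmn, Subgroup.mem_bot] at h5
        have h6 : z m = b := mul_inv_eq_one.1 h5
        have h7 := Subgroup.orderOf_dvd_natCard (O m) hb
        rw [← h6, hzo, hOcard] at h7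
        exact hr h7
  have hle : Fintype.card ι + 1 ≤ Nat.card (MulAction.orbitRel.Quotient W Ω) := by
    have h1 := Nat.card_le_card_of_injective _ hinj
    rw [Nat.card_eq_fintype_card, Fintype.card_option] at h1
    exact h1
  have h8 : p ^ (4 * α) = (p ^ α) ^ 4 := by rw [← pow_mul, mul_comm]
  rw [← h8]
  omega

end Pool.H67.CS
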