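import Pool.Agent.H67.CS.Tja

/-!
# Row Gja (MP_718a21_CS): the groups of local translations (150 lines)

`K` a set of directions with `Rel E K y z` for all `y, z` (hypothesis `hK`), `i ∉ K`. (Model: the file `Pool/Agent/H67/CR/Gra.lean`, where the same is
proved for `K` = all directions different from `i`.)
* `gja_step`, `gja_unique`: two maps in `PJ E K i` which agree at a point agree everywhere (along `Rel E K`, induction: `tr_un`; for the
 induction on `EqvGen` prove `σ y = σ' y ↔ σ z = σ' z`).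
* `gja_comp`, `gja_id`, `gja_inv` as in `Gra` (`pres_comp`, `pres_id`, `pres_inv`): inverse: let `E e y z`, `e ∈ K`, `u = σ⁻¹ y`; `E i u y`, so `E i y u`; `tr_ex`: `v` with
 `E i z v`, `E e u v`. Then `E e (σ u) (σ v)`, i.e. `E e y (σ v)`, `E i z (σ v)`; `tr_un`: `z = σ v`.
* `gja_orbit`: with existence `hσ`: `E i y z` ⇒ some `σ ∈ AJ` has `σ y = z`. `gja_card`: `Nat.card (AJ h hi) = q`.
* `gja_free`: `σ ∈ AJ`, `σ y = y` ⇒ `σ = 1`.
-/

set_option autoImplicit false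

namespace Pool.H67.CS

open Finset Classical
open Pool.H67.CR

variable {Ω J : Type*} [Fintype Ω] [Fintype J] {E T : J → Ω → Ω → Prop} {q : ℕ}

theorem gja_unique (h : Co E T q) {K : Finset J} (hK : ∀ y z, Rel E K y z) {i : J} (hi : i ∉ K)
    {σ σ' : Ω → Ω} (h1 : PJ E K i σ) (h2 : PJ E K i σ') {y : Ω} (hy : σ y = σ' y) : σ = σ' := by
  have step : ∀ e ∈ K, ∀ z w, E e z w → σ z = σ' z → σ w = σ' w := by
    intro e he z w hzw hz
    have hei : e ≠ i := fun h' => hi (h' ▸ he)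
    refine tr_un h hei (h1.1 w) (h2.1 w) (h1.2 e he z w hzw) ?_
    rw [hz]
    exact h2.2 e he z w hzw
  have key : ∀ z w, Rel E K z w → (σ z = σ' z ↔ σ w = σ' w) := by
    intro z w hzw
    induction hzw with
    | rel z w h' =>
      obtain ⟨e, he, h'⟩ := h'
      exact ⟨step e he z w h', step e he w z (h.symm e z w h')⟩
    | refl z => exact Iff.rfl
    | symm z w _ ih => exact ih.symm
    | trans z w x _ _ ih1 ih2 => exact ih1.trans ih2
  funext z
  exact (key y z (hK y z)).1 hy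

theorem gja_comp (h : Co E T q) {K : Finset J} {i : J} {σ τ : Ω → Ω} (h1 : PJ E K i σ)
    (h2 : PJ E K i τ) : PJ E K i (σ ∘ τ) := by
  exact ⟨fun y => h.trans i y (τ y) _ (h2.1 y) (h1.1 (τ y)),
    fun e he y z hyz => h1.2 e he _ _ (h2.2 e he y z hyz)⟩

theorem gja_id (h : Co E T q) (K : Finset J) (i : J) : PJ E K i (id : Ω → Ω) := by
  exact ⟨fun y => h.refl i y, fun _ _ _ _ hyz => hyz⟩

theorem gja_inv (h : Co E T q) {K : Finset J} {i : J} (hi : i ∉ K) {σ : Equiv.Perm Ω}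
    (h1 : PJ E K i ⇑σ) : PJ E K i ⇑(σ⁻¹) := by
  have h0 : ∀ y, E i (σ⁻¹ y) y := fun y => by
    have := h1.1 (σ⁻¹ y)
    rwa [show σ (σ⁻¹ y) = y from Equiv.apply_symm_apply σ y] at this
  refine ⟨fun y => h.symm i _ _ (h0 y), fun a ha y z hyz => ?_⟩
  have hai : a ≠ i := fun h' => hi (h' ▸ ha)
  obtain ⟨v, hv1, hv2⟩ := tr_ex h (h.symm i _ _ (h0 y)) hyz
  have h3 := h1.2 a ha _ _ hv2
  rw [show σ (σ⁻¹ y) = y from Equiv.apply_symm_apply σ y] at h3
  have h4 : z = σ v := tr_un h hai (h.refl i z) (h.trans i z v (σ v) hv1 (h1.1 v)) hyz h3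
  have h5 : σ⁻¹ z = v := by
    rw [h4]
    exact Equiv.symm_apply_apply σ v
  rw [h5]
  exact hv2

/-- the group of the maps in `PJ E K i` -/
def AJ (h : Co E T q) {K : Finset J} {i : J} (hi : i ∉ K) : Subgroup (Equiv.Perm Ω) where
  carrier := {σ | PJ E K i ⇑σ}
  mul_mem' := by
    intro σ τ h1 h2
    change PJ E K i (⇑σ ∘ ⇑τ)
    exact gja_comp h h1 h2
  one_mem' := gja_id h K i
  inv_mem' := by
    intro σ h1
    exact gja_inv h hi h1

theorem mem_AJ (h : Co E T q) {K : Finset J} {i : J} (hi : i ∉ K) {σ : Equiv.Perm Ω} :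
    σ ∈ AJ h hi ↔ PJ E K i ⇑σ := Iff.rfl

theorem gja_orbit (h : Co E T q) {K : Finset J} (hK : ∀ y z, Rel E K y z) {i : J} (hi : i ∉ K)
    (hσ : ∀ y0 y0', E i y0 y0' → ∃ σ : Ω → Ω, σ y0 = y0' ∧ PJ E K i σ) {y z : Ω} (hyz : E i y z) :
    ∃ σ ∈ AJ h hi, σ y = z := by
  obtain ⟨σ, hs, h1⟩ := hσ y z hyz
  obtain ⟨σ', hs', h2⟩ := hσ z y (h.symm i y z hyz)
  have e1 : σ' ∘ σ = id := gja_unique h hK hi (gja_comp h h2 h1) (gja_id h K i) (y := y)
    (by show σ' (σ y) = y; rw [hs, hs'])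
  have e2 : σ ∘ σ' = id := gja_unique h hK hi (gja_comp h h1 h2) (gja_id h K i) (y := z)
    (by show σ (σ' z) = z; rw [hs', hs])
  exact ⟨⟨σ, σ', fun x => congrFun e1 x, fun x => congrFun e2 x⟩, h1, hs⟩

theorem gja_card (h : Co E T q) (hq : 2 ≤ q) {K : Finset J} (hK : ∀ y z, Rel E K y z) {i : J} (hi : i ∉ K)
    (hσ : ∀ y0 y0', E i y0 y0' → ∃ σ : Ω → Ω, σ y0 = y0' ∧ PJ E K i σ) :
    Nat.card (AJ h hi) = q := by
  have hΩ : 0 < Fintype.card Ω := by rw [h.pts]; positivity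
  obtain ⟨y⟩ := Fintype.card_pos_iff.1 hΩ
  let f : AJ h hi → {z // E i y z} := fun σ => ⟨σ.1 y, σ.2.1 y⟩
  have hf : Function.Bijective f := by
    constructor
    · intro σ τ hst
      have h1 : σ.1 y = τ.1 y := congrArg Subtype.val hst
      exact Subtype.ext (Equiv.coe_fn_injective (gja_unique h hK hi σ.2 τ.2 h1))
    · rintro ⟨z, hz⟩
      obtain ⟨σ, h1, h2⟩ := gja_orbit h hK hi hσ hz
      exact ⟨⟨σ, h1⟩, Subtype.ext h2⟩
  rw [Nat.card_congr (Equiv.ofBijective f hf), Nat.card_eq_fintype_card, Fintype.card_subtype]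
  exact h.cls i y

theorem gja_free (h : Co E T q) {K : Finset J} (hK : ∀ y z, Rel E K y z) {i : J} (hi : i ∉ K)
    {σ : Equiv.Perm Ω} (h1 : σ ∈ AJ h hi) {y : Ω} (hy : σ y = y) : σ = 1 := by
  exact Equiv.coe_fn_injective (gja_unique h hK hi h1 (gja_id h K i) (y := y) hy)

end Pool.H67.CS
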