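import Mathlib

/-!
# Row Pma (MP_718a21_CS): permutable subgroups of a finite group (140 lines), Mathlib only

* `Pm.symm`: `b a = (a⁻¹ b⁻¹)⁻¹`, `a⁻¹ b⁻¹ = b' a'`, so `b a = a'⁻¹ b'⁻¹`.
* `Pm.refl`: `a * b = (a * b) * 1`.
* `Pm.mem_sup`: the set of the products `a b` is closed under products (`a b a₁ b₁ = a (b a₁) b₁ = a (a₂ b₂) b₁`, by
 `Pm.symm`), inverses (`(a b)⁻¹ = b⁻¹ a⁻¹ = a' b'`), contains `A` and `B`, and is contained in `A ⊔ B`.
* `Pm.card`: the map `A × B → A ⊔ B`, `(a, b) ↦ a b`, is onto (`mem_sup`), and each fibre has `Nat.card (A ⊓ B)` elements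
 (`a b = a₁ b₁` iff `a₁ = a c`, `b₁ = c⁻¹ b` with `c ∈ A ⊓ B`): e.g. give a bijection `A × B ≃ (A ⊔ B) × (A ⊓ B)`, or
 use a Mathlib lemma on the cardinality of a product of two subgroups (`Subgroup.card_mul_...`,
 `Nat.card (A * B : Set G) * Nat.card (A ⊓ B) = Nat.card A * Nat.card B`), or `relIndex`.
* `Pm.sup`, `Pm.iSup`: the set of the `x` such that for all `a ∈ A` there are `x' ∈ C`, `a' ∈ A` with `a x = x' a'` (`C` the join)
 contains the generators and is closed under products (apply it twice). `G` is finite, so inverses are powers. (Use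
 `Subgroup.closure_induction` for the closure of the union, `Subgroup.iSup_induction`.)
-/

set_option autoImplicit false

namespace Pool.H67.CS

variable {G : Type*} [Group G]

/-- permutable subgroups: `A B = B A` -/
def Pm (A B : Subgroup G) : Prop := ∀ a ∈ A, ∀ b ∈ B, ∃ b' ∈ B, ∃ a' ∈ A, a * b = b' * a'

theorem Pm.symm {A B : Subgroup G} (h : Pm A B) : Pm B A := by
  intro b hb a ha
  obtain ⟨b', hb', a', ha', e⟩ := h a⁻¹ (A.inv_mem ha) b⁻¹ (B.inv_mem hb)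
  refine ⟨a'⁻¹, A.inv_mem ha', b'⁻¹, B.inv_mem hb', ?_⟩
  have h1 : b * a = (a⁻¹ * b⁻¹)⁻¹ := by group
  rw [h1, e, mul_inv_rev]

theorem Pm.refl (A : Subgroup G) : Pm A A :=
  fun a ha b hb => ⟨a * b, A.mul_mem ha hb, 1, A.one_mem, by rw [mul_one]⟩

theorem Pm.mem_sup {A B : Subgroup G} (h : Pm A B) (x : G) :
    x ∈ A ⊔ B ↔ ∃ a ∈ A, ∃ b ∈ B, x = a * b := by
  constructor
  · intro hx
    obtain ⟨S, hS⟩ : ∃ S : Subgroup G, ∀ x, x ∈ S ↔ ∃ a ∈ A, ∃ b ∈ B, x = a * b := by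
      refine ⟨{ carrier := {x | ∃ a ∈ A, ∃ b ∈ B, x = a * b}, mul_mem' := ?_, one_mem' := ?_,
                inv_mem' := ?_ }, fun x => Iff.rfl⟩
      · rintro _ _ ⟨a, ha, b, hb, rfl⟩ ⟨a1, ha1, b1, hb1, rfl⟩
        obtain ⟨a2, ha2, b2, hb2, e⟩ := h.symm b hb a1 ha1
        refine ⟨a * a2, A.mul_mem ha ha2, b2 * b1, B.mul_mem hb2 hb1, ?_⟩
        calc a * b * (a1 * b1) = a * (b * a1) * b1 := by group
          _ = a * (a2 * b2) * b1 := by rw [e]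
          _ = a * a2 * (b2 * b1) := by group
      · exact ⟨1, A.one_mem, 1, B.one_mem, by rw [mul_one]⟩
      · rintro _ ⟨a, ha, b, hb, rfl⟩
        obtain ⟨a2, ha2, b2, hb2, e⟩ := h.symm b⁻¹ (B.inv_mem hb) a⁻¹ (A.inv_mem ha)
        exact ⟨a2, ha2, b2, hb2, by rw [mul_inv_rev, e]⟩
    have hle : A ⊔ B ≤ S := by
      refine sup_le (fun a ha => (hS a).2 ⟨a, ha, 1, B.one_mem, by rw [mul_one]⟩)
        (fun b hb => (hS b).2 ⟨1, A.one_mem, b, hb, by rw [one_mul]⟩)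
    exact (hS x).1 (hle hx)
  · rintro ⟨a, ha, b, hb, rfl⟩
    exact Subgroup.mul_mem_sup ha hb

theorem Pm.card [Finite G] {A B : Subgroup G} (h : Pm A B) :
    Nat.card (A ⊔ B : Subgroup G) * Nat.card (A ⊓ B : Subgroup G) = Nat.card A * Nat.card B := by
  rw [← Nat.card_prod, ← Nat.card_prod]
  have hd : ∀ x : (A ⊔ B : Subgroup G), ∃ a : A, ∃ b : B, (x : G) = a * b := by
    intro x
    obtain ⟨a, ha, b, hb, e⟩ := (h.mem_sup x).1 x.2
    exact ⟨⟨a, ha⟩, ⟨b, hb⟩, e⟩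
  choose α β hαβ using hd
  refine Nat.card_congr
    { toFun := fun q => (⟨(α q.1 : G) * q.2, A.mul_mem (α q.1).2 q.2.2.1⟩,
        ⟨(q.2 : G)⁻¹ * β q.1, B.mul_mem (B.inv_mem q.2.2.2) (β q.1).2⟩)
      invFun := fun r => (⟨(r.1 : G) * r.2, Subgroup.mul_mem_sup r.1.2 r.2.2⟩,
        ⟨(α ⟨(r.1 : G) * r.2, Subgroup.mul_mem_sup r.1.2 r.2.2⟩ : G)⁻¹ * r.1,
          A.mul_mem (A.inv_mem (α _).2) r.1.2, ?_⟩)
      left_inv := ?_
      right_inv := ?_ }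
  · have e := hαβ ⟨(r.1 : G) * r.2, Subgroup.mul_mem_sup r.1.2 r.2.2⟩
    change (r.1 : G) * r.2 = _ at e
    have e2 : (α ⟨(r.1 : G) * r.2, Subgroup.mul_mem_sup r.1.2 r.2.2⟩ : G)⁻¹ * r.1 =
        (β ⟨(r.1 : G) * r.2, Subgroup.mul_mem_sup r.1.2 r.2.2⟩ : G) * (r.2 : G)⁻¹ := by
      rw [inv_mul_eq_iff_eq_mul, ← mul_assoc, ← e, mul_inv_cancel_right]
    rw [e2]
    exact B.mul_mem (β _).2 (B.inv_mem r.2.2)
  · rintro ⟨x, c⟩
    have e1 : (α x : G) * c * ((c : G)⁻¹ * β x) = x := by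
      rw [hαβ x]
      group
    refine Prod.ext (Subtype.ext ?_) (Subtype.ext ?_)
    · exact e1
    · have e2 : (⟨(α x : G) * c * ((c : G)⁻¹ * β x), Subgroup.mul_mem_sup
          (A.mul_mem (α x).2 c.2.1) (B.mul_mem (B.inv_mem c.2.2) (β x).2)⟩ :
            (A ⊔ B : Subgroup G)) = x := Subtype.ext e1
      show (α (⟨(α x : G) * c * ((c : G)⁻¹ * β x), Subgroup.mul_mem_sup
          (A.mul_mem (α x).2 c.2.1) (B.mul_mem (B.inv_mem c.2.2) (β x).2)⟩ :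
            (A ⊔ B : Subgroup G)) : G)⁻¹ * ((α x : G) * c) = c
      rw [e2]
      group
  · rintro ⟨a, b⟩
    refine Prod.ext (Subtype.ext ?_) (Subtype.ext ?_)
    · show (α ⟨(a : G) * b, Subgroup.mul_mem_sup a.2 b.2⟩ : G) *
        ((α ⟨(a : G) * b, Subgroup.mul_mem_sup a.2 b.2⟩ : G)⁻¹ * a) = a
      group
    · show ((α ⟨(a : G) * b, Subgroup.mul_mem_sup a.2 b.2⟩ : G)⁻¹ * a)⁻¹ *
        (β ⟨(a : G) * b, Subgroup.mul_mem_sup a.2 b.2⟩ : G) = b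
      have e := hαβ ⟨(a : G) * b, Subgroup.mul_mem_sup a.2 b.2⟩
      change (a : G) * b = _ at e
      rw [mul_inv_rev, inv_inv, mul_assoc, ← e]
      group

theorem Pm.iSup [Finite G] {ι : Type*} {A : Subgroup G} {B : ι → Subgroup G} (h : ∀ i, Pm A (B i)) :
    Pm A (⨆ i, B i) := by
  intro a ha x hx
  have key : ∀ x ∈ (⨆ i, B i), ∀ a ∈ A, ∃ b' ∈ (⨆ i, B i), ∃ a' ∈ A, a * x = b' * a' := by
    intro x hx
    refine Subgroup.iSup_induction B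
      (C := fun x => ∀ a ∈ A, ∃ b' ∈ (⨆ i, B i), ∃ a' ∈ A, a * x = b' * a') hx ?_ ?_ ?_
    · intro i y hy a ha
      obtain ⟨b', hb', a', ha', e⟩ := h i a ha y hy
      exact ⟨b', Subgroup.mem_iSup_of_mem i hb', a', ha', e⟩
    · intro a ha
      exact ⟨1, one_mem _, a, ha, by rw [mul_one, one_mul]⟩
    · intro y z hy hz a ha
      obtain ⟨b', hb', a', ha', e⟩ := hy a ha
      obtain ⟨b2, hb2, a2, ha2, e2⟩ := hz a' ha'
      refine ⟨b' * b2, mul_mem hb' hb2, a2, ha2, ?_⟩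
      rw [← mul_assoc, e, mul_assoc, e2, mul_assoc]
  exact key x hx a ha

theorem Pm.sup [Finite G] {A B C : Subgroup G} (h : Pm A B) (h' : Pm A C) : Pm A (B ⊔ C) := by
  rw [sup_eq_iSup]
  refine Pm.iSup fun i => ?_
  cases i
  · exact h'
  · exact h

end Pool.H67.CS
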