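import Pool.Agent.H67.CS.Gja
import Pool.Agent.H67.CS.Pm
import Pool.Agent.H67.CR.Lfou

/-!
# Row Gjb (MP_718a21_CS): the local translation groups are permutable (160 lines)

`K` connects `Ω` (`hK`), `m, n ∉ K`, existence of the translations (`hm`, `hn`).
* `gjb_pm`: `Pm (AJ h hm') (AJ h hn')`. If `m = n`: `Pm.refl` (the two groups have the same carrier). Let `m ≠ n`, `α` in the first, `β` in the second group. First:
 there are `α'`, `β'` with `α' β = β' α`: fix `y0` (`Ω` is nonempty, `card Ω = q^4`; if empty trivial). `E n (β y0) y0`, `E m y0 (α y0)`, so by `h.comm n m` there is `p`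
 with `E m (β y0) p`, `E n p (α y0)`. Let `α'` with `α' (β y0) = p`, `β'` with `β' (α y0) = p` (`gja_orbit`). Claim: `α' (β y) = β' (α y)` for all `y`. It holds at `y0`, and
 it is transported along `E c`, `c ∈ K`: let it hold at `y`, `E c y z` (or `E c z y`). `p1 = α' (β z)`, `p2 = β' (α z)`: `E c` preserved by all maps: `E c (α' (β y)) p1`,
 `E c (β' (α y)) p2`, so `E c p1 p2`. `p1 ≡_m β z ≡_n z ≡_m α z ≡_n p2`; `h.comm n m`: `v` with `E m (β z) v`, `E n v (α z)`; so `E m p1 v`, `E n v p2`, `E c p2 p1`: `h.notri` gives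
 `p1 = v`, then `E n p1 p2` and `E c p1 p2`: `p1 = p2`. Now for given `α, β` apply this to `α` and `β⁻¹`: `α' β⁻¹ = β' α`, so `α β = β'⁻¹ α'`.
* `gjb_free`: `m ≠ n`, `g` in the join of the two groups, `g y = y` ⇒ `g = 1`: `g = α β` (`Pm.mem_sup`), `E n y (β y)`, `E m (β y) (α (β y))` and `α (β y) = y`, so `β y = y` (`h.one`),
 `β = 1`, then `α y = y`, `α = 1` (`gja_free`).
* `gjb_inf`: an element `σ` of both: `E m y (σ y)`, `E n y (σ y)`: `σ y = y` for all `y`.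
* `gjb_tr`: if `q ≥ 3` and `K.card = 4`, the join of all the groups `AJ` for the directions outside `K` is transitive. Proof: let `M = univ \ K`, `M.card = q^2 + 1 - 4 ≥ q + 2`
 (`q ≥ 3`). `f = 1_{Cl E M y} - |Cl E M y| / q^4` is invariant under `M` with sum zero, so it is zero (`l4_zero`), so `Cl E M y = univ`, i.e. `Rel E M y z` for all `z`. Induct along `Rel`:
 each step `E m u v`, `m ∈ M`, is made by an element of the group (`gja_orbit`).
-/

set_option autoImplicit false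

namespace Pool.H67.CS

open Finset Classical
open Pool.H67.CR

variable {Ω J : Type*} [Fintype Ω] [Fintype J] {E T : J → Ω → Ω → Prop} {q : ℕ}

omit [Fintype Ω] [Fintype J] in
theorem GJB_ind {K : Finset J} {Q : Ω → Prop} (h : ∀ c ∈ K, ∀ y z, E c y z → (Q y ↔ Q z))
    {y z : Ω} (hyz : Rel E K y z) : Q y ↔ Q z := by
  induction hyz with
  | rel y z h' => obtain ⟨a, ha, h'⟩ := h'; exact h a ha y z h'
  | refl y => exact Iff.rfl
  | symm y z _ ih => exact ih.symm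
  | trans y z w _ _ ih1 ih2 => exact ih1.trans ih2

theorem GJB_step (h : Co E T q) {K : Finset J} {m n : J} (hmn : m ≠ n) (hm' : m ∉ K)
    (hn' : n ∉ K) {α α' β β' : Ω → Ω} (h1 : PJ E K m α) (h2 : PJ E K m α') (h3 : PJ E K n β)
    (h4 : PJ E K n β') {c : J} (hc : c ∈ K) {y z : Ω} (hyz : E c y z) (hy : α' (β y) = β' (α y)) :
    α' (β z) = β' (α z) := by
  have hcm : m ≠ c := fun k => hm' (k ▸ hc)
  have hcn : n ≠ c := fun k => hn' (k ▸ hc)
  have e1 : E c (α' (β y)) (α' (β z)) := h2.2 c hc _ _ (h3.2 c hc _ _ hyz)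
  have e2 : E c (β' (α y)) (β' (α z)) := h4.2 c hc _ _ (h1.2 c hc _ _ hyz)
  rw [hy] at e1
  have e3 : E c (α' (β z)) (β' (α z)) := h.trans _ _ _ _ (h.symm _ _ _ e1) e2
  obtain ⟨v, hv1, hv2⟩ := h.comm n m (β z) z (α z) (h.symm _ _ _ (h3.1 z)) (h1.1 z)
  have f1 : E m (α' (β z)) v := h.trans _ _ _ _ (h.symm _ _ _ (h2.1 (β z))) hv1
  have f2 : E n v (β' (α z)) := h.trans _ _ _ _ hv2 (h4.1 (α z))
  have f3 : α' (β z) = v := h.notri m n c _ _ _ hmn hcn hcm f1 f2 (h.symm _ _ _ e3)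
  rw [← f3] at f2
  exact h.one n c _ _ hcn f2 e3

theorem GJB_key (h : Co E T q) {K : Finset J} (hK : ∀ y z, Rel E K y z) {m n : J} (hmn : m ≠ n)
    (hm' : m ∉ K) (hn' : n ∉ K)
    (hm : ∀ y0 y0', E m y0 y0' → ∃ σ : Ω → Ω, σ y0 = y0' ∧ PJ E K m σ)
    (hn : ∀ y0 y0', E n y0 y0' → ∃ σ : Ω → Ω, σ y0 = y0' ∧ PJ E K n σ)
    {α β : Equiv.Perm Ω} (hα : α ∈ AJ h hm') (hβ : β ∈ AJ h hn') :
    ∃ α' ∈ AJ h hm', ∃ β' ∈ AJ h hn', α' * β = β' * α := by
  rcases isEmpty_or_nonempty Ω with hΩ | ⟨⟨y0⟩⟩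
  · exact ⟨1, Subgroup.one_mem _, 1, Subgroup.one_mem _, Equiv.ext fun y => isEmptyElim y⟩
  · obtain ⟨p, hp1, hp2⟩ := h.comm n m (β y0) y0 (α y0) (h.symm _ _ _ (hβ.1 y0)) (hα.1 y0)
    obtain ⟨α', hα', e1⟩ := gja_orbit h hK hm' hm hp1
    obtain ⟨β', hβ', e2⟩ := gja_orbit h hK hn' hn (h.symm _ _ _ hp2)
    refine ⟨α', hα', β', hβ', Equiv.ext fun y => ?_⟩
    show α' (β y) = β' (α y)
    have key : ∀ c ∈ K, ∀ y z, E c y z → (α' (β y) = β' (α y) ↔ α' (β z) = β' (α z)) := by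
      intro c hc y z hyz
      exact ⟨fun k => GJB_step h hmn hm' hn' hα hα' hβ hβ' hc hyz k,
        fun k => GJB_step h hmn hm' hn' hα hα' hβ hβ' hc (h.symm _ _ _ hyz) k⟩
    refine (GJB_ind key (hK y0 y)).1 ?_
    rw [e1, e2]

theorem gjb_pm (h : Co E T q) {K : Finset J} (hK : ∀ y z, Rel E K y z) {m n : J} (hm' : m ∉ K)
    (hn' : n ∉ K) (hm : ∀ y0 y0', E m y0 y0' → ∃ σ : Ω → Ω, σ y0 = y0' ∧ PJ E K m σ)
    (hn : ∀ y0 y0', E n y0 y0' → ∃ σ : Ω → Ω, σ y0 = y0' ∧ PJ E K n σ) :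
    Pm (AJ h hm') (AJ h hn') := by
  by_cases hmn : m = n
  · subst hmn
    exact Pm.refl _
  · intro α hα β hβ
    obtain ⟨α', hα', β', hβ', e⟩ := GJB_key h hK hmn hm' hn' hm hn hα (Subgroup.inv_mem _ hβ)
    refine ⟨β'⁻¹, Subgroup.inv_mem _ hβ', α', hα', ?_⟩
    have e2 : α' = β' * α * β := by
      rw [← e, mul_assoc, inv_mul_cancel, mul_one]
    rw [e2, mul_assoc, inv_mul_cancel_left]

theorem gjb_inf (h : Co E T q) {K : Finset J} {m n : J} (hmn : m ≠ n) (hm' : m ∉ K) (hn' : n ∉ K) :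
    AJ h hm' ⊓ AJ h hn' = ⊥ := by
  rw [eq_bot_iff]
  intro σ hσ
  rw [Subgroup.mem_inf] at hσ
  rw [Subgroup.mem_bot]
  exact Equiv.ext fun y => (h.one m n y (σ y) hmn (hσ.1.1 y) (hσ.2.1 y)).symm

theorem gjb_free (h : Co E T q) {K : Finset J} (hK : ∀ y z, Rel E K y z) {m n : J} (hmn : m ≠ n)
    (hm' : m ∉ K) (hn' : n ∉ K) (hpm : Pm (AJ h hm') (AJ h hn')) {g : Equiv.Perm Ω}
    (hg : g ∈ AJ h hm' ⊔ AJ h hn') {y : Ω} (hy : g y = y) : g = 1 := by
  obtain ⟨a, ha, b, hb, rfl⟩ := (hpm.mem_sup g).1 hg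
  have hy' : a (b y) = y := hy
  have e1 : E n y (b y) := hb.1 y
  have e2 : E m (b y) (a (b y)) := ha.1 (b y)
  rw [hy'] at e2
  have e3 : y = b y := h.one n m y (b y) hmn.symm e1 (h.symm _ _ _ e2)
  have hb1 : b = 1 := gja_free h hK hn' hb e3.symm
  subst hb1
  have ha1 : a = 1 := gja_free h hK hm' ha (y := y) hy'
  rw [ha1, mul_one]

theorem GJB_conn (h : Co E T q) (hq : 3 ≤ q) {M : Finset J} (hM : q + 2 ≤ M.card) (y z : Ω) :
    Rel E M y z := by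
  have hq0 : ((q : ℚ) ^ 4) ≠ 0 := by
    have : 0 < q := by omega
    positivity
  have h1 := Clo.inv h (Cl_clo (E := E) M y) (((Cl E M y).card : ℚ) / (q : ℚ) ^ 4)
  have h0 := l4_zero h (by omega) M hM _ (by
    rw [Finset.sum_sub_distrib, Finset.sum_boole, Finset.sum_const, Finset.card_univ, h.pts,
      nsmul_eq_mul]
    have e : (univ.filter fun z => z ∈ Cl E M y) = Cl E M y := by
      ext z
      simp
    rw [e]
    push_cast
    field_simp
    simp) h1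
  have hy := congrFun h0 y
  have hz := congrFun h0 z
  simp only [Cl_self, if_true, Pi.zero_apply] at hy
  simp only [Pi.zero_apply] at hz
  rw [← mem_Cl]
  by_contra hn
  rw [if_neg hn] at hz
  linarith

theorem gjb_tr (h : Co E T q) (hq : 3 ≤ q) {K : Finset J} (hK : ∀ y z, Rel E K y z) (hc : K.card = 4)
    (hσ : ∀ m ∉ K, ∀ y0 y0', E m y0 y0' → ∃ σ : Ω → Ω, σ y0 = y0' ∧ PJ E K m σ) (y z : Ω) :
    ∃ g ∈ (⨆ m : {m : J // m ∉ K}, AJ h m.2 : Subgroup (Equiv.Perm Ω)), g y = z := by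
  have hM : q + 2 ≤ (univ \ K).card := by
    rw [Finset.card_sdiff_of_subset (Finset.subset_univ K), Finset.card_univ, h.dirs, hc]
    have : q + 5 ≤ q ^ 2 := by nlinarith
    omega
  have hR := GJB_conn h hq hM y z
  induction hR with
  | rel u v huv =>
    obtain ⟨m, hm, huv⟩ := huv
    have hmK : m ∉ K := (Finset.mem_sdiff.1 hm).2
    obtain ⟨σ, h1, h2⟩ := gja_orbit h hK hmK (hσ m hmK) huv
    exact ⟨σ, (le_iSup (fun m : {m : J // m ∉ K} => AJ h m.2) ⟨m, hmK⟩) h1, h2⟩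
  | refl u => exact ⟨1, Subgroup.one_mem _, rfl⟩
  | symm u v _ ih =>
    obtain ⟨g, h1, h2⟩ := ih
    refine ⟨g⁻¹, Subgroup.inv_mem _ h1, ?_⟩
    rw [← h2]
    exact Equiv.symm_apply_apply g u
  | trans u v w _ _ ih1 ih2 =>
    obtain ⟨g, h1, h2⟩ := ih1
    obtain ⟨g', h1', h2'⟩ := ih2
    refine ⟨g' * g, Subgroup.mul_mem _ h1' h1, ?_⟩
    show g' (g u) = w
    rw [h2, h2']

end Pool.H67.CS
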