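import Pool.Agent.H67.CR.Span

/-!
# Row Ind (MP_718a21_CS): four independent directions (150 lines)

`Ind E a b c d`: different directions, and every `d`-line meets every class of `Rel E {a, b, c}` exactly once.
`ind_ex`: they exist (`q ≥ 3`). Proof. Choose different `a, b, c` (`card J = q^2 + 1`), `K = {a, b, c}`, `S = {A | Fam E q A ∧ K ⊆ A}`.
(1) `S.card ≤ q - 1`: sum `span_id` over all `y`: `∑ y, ∑ A ∈ S, (q^4 / |Cl A y| - 1) = q^4 (q - 1)`. For each `A ∈ S`:
 `∑ y, 1 / |Cl A y| ≥ 2`: take `y1` and `Z1 = Cl E A y1`, which is not everything (`cl_card`: `|Z1| = k q^3`, `k < q`, and `card Ω = q^4`), `y2 ∉ Z1`,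
 `Z2 = Cl E A y2` disjoint from `Z1`; the sum over `Z1` is `1` (all classes of points of `Z1` are `Z1`, `Cl_eq`) and over `Z2` is `1`. So
 `∑ y, (q^4 / |Cl A y| - 1) ≥ 2 q^4 - q^4 = q^4`. So `S.card * q^4 ≤ q^4 (q - 1)`.
(2) the union of the `A \ K`, `A ∈ S`, has at most `(q - 1) (q + 1 - 3)` elements, and `(q - 1) (q - 2) < q^2 + 1 - 3`. So there is `d ∉ K`
 which is in no `A ∈ S`.
(3) if `f` is `K`-invariant with sum zero, then `Av E q d f = 0`: otherwise `g = Av E q d f` is nonzero, of sum zero (`av_sum` with `univ`), invariant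
 under `K` (`av_inv`) and `d` (`av_line`), so `l4` for `insert d K` gives a member of the family containing `K` and `d`.
(4) apply (3) to `f = 1_{Cl K z} - 1/q` (`tri_card`: `|Cl K z| = q^3`, sum `q^3 - q^4/q = 0`; `Clo.inv` or `Cl_clo`): at `y`: the `d`-line of `y` has exactly one point
 in `Cl K z`. For the last part of `Ind`: `y` and `w` are both in `Cl K y` and on the `d`-line of `y`.
-/

set_option autoImplicit false

namespace Pool.H67.CS

open Finset Classical
open Pool.H67.CR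

variable {Ω J : Type*} [Fintype Ω] [Fintype J] {E T : J → Ω → Ω → Prop} {q : ℕ}

/-- four independent directions -/
structure Ind (E : J → Ω → Ω → Prop) (a b c d : J) : Prop where
  ab : a ≠ b
  ac : a ≠ c
  ad : a ≠ d
  bc : b ≠ c
  bd : b ≠ d
  cd : c ≠ d
  meet : ∀ y z, ∃ w, E d y w ∧ Rel E {a, b, c} z w
  once : ∀ y w, E d y w → Rel E {a, b, c} y w → y = w

/-- the sum of the inverse class sizes over a class -/
theorem Ind_cls (A : Finset J) (y0 : Ω) :
    ∑ y ∈ Cl E A y0, 1 / ((Cl E A y).card : ℚ) = 1 := by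
  have h1 : ∀ y ∈ Cl E A y0, 1 / ((Cl E A y).card : ℚ) = 1 / ((Cl E A y0).card : ℚ) := by
    intro y hy
    rw [Cl_eq (mem_Cl.1 hy)]
  rw [sum_congr rfl h1, sum_const, nsmul_eq_mul, mul_one_div]
  have h2 : ((Cl E A y0).card : ℚ) ≠ 0 := by
    have : 0 < (Cl E A y0).card := card_pos.2 ⟨y0, Cl_self A y0⟩
    positivity
  exact div_self h2

theorem Ind_two (h : Co E T q) (hq : 3 ≤ q) (A : Finset J) (hA : Fam E q A) :
    (q : ℚ) ^ 4 ≤ ∑ y, ((q : ℚ) ^ 4 / ((Cl E A y).card : ℚ) - 1) := by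
  have hne : Nonempty Ω := by
    rw [← Fintype.card_pos_iff, h.pts]
    positivity
  obtain ⟨y1⟩ := hne
  obtain ⟨k, -, hk, hc⟩ := cl_card h (by omega) A hA y1
  obtain ⟨y2, hy2⟩ : ∃ y2, y2 ∉ Cl E A y1 := by
    by_contra hcon
    push Not at hcon
    have h1 : (univ : Finset Ω) ⊆ Cl E A y1 := fun y _ => hcon y
    have h2 := card_le_card h1
    rw [card_univ, h.pts, hc] at h2
    have h3 : 0 < q ^ 3 := by positivity
    have h4 : k * q ^ 3 < q * q ^ 3 := Nat.mul_lt_mul_of_pos_right hk h3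
    have h5 : q * q ^ 3 = q ^ 4 := by ring
    omega
  have hd : Disjoint (Cl E A y1) (Cl E A y2) := Cl_disj fun h1 => hy2 (mem_Cl.2 h1)
  have hpos : ∀ y, 0 ≤ 1 / ((Cl E A y).card : ℚ) := fun y => by positivity
  have h6 : (2 : ℚ) ≤ ∑ y, 1 / ((Cl E A y).card : ℚ) := by
    calc (2 : ℚ) = ∑ y ∈ Cl E A y1 ∪ Cl E A y2, 1 / ((Cl E A y).card : ℚ) := by
          rw [sum_union hd, Ind_cls, Ind_cls]
          norm_num
      _ ≤ ∑ y, 1 / ((Cl E A y).card : ℚ) :=
          sum_le_sum_of_subset_of_nonneg (subset_univ _) fun y _ _ => hpos y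
  have h7 : ∑ y, ((q : ℚ) ^ 4 / ((Cl E A y).card : ℚ) - 1) =
      (q : ℚ) ^ 4 * (∑ y, 1 / ((Cl E A y).card : ℚ)) - (q : ℚ) ^ 4 := by
    rw [sum_sub_distrib, sum_const, card_univ, h.pts, nsmul_eq_mul, mul_one, mul_sum]
    push_cast
    congr 1
    exact sum_congr rfl fun y _ => by rw [mul_one_div]
  rw [h7]
  have h8 : (0 : ℚ) ≤ (q : ℚ) ^ 4 := by positivity
  nlinarith

theorem Ind_S (h : Co E T q) (hq : 3 ≤ q) (a b c : J) (hab : a ≠ b) (hbc : b ≠ c) (hac : a ≠ c) :
    ((univ : Finset (Finset J)).filter (fun A => Fam E q A ∧ {a, b, c} ⊆ A)).card ≤ q - 1 := by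
  set S := (univ : Finset (Finset J)).filter (fun A => Fam E q A ∧ {a, b, c} ⊆ A) with hS
  have h1 : ∑ y : Ω, ∑ A ∈ S, ((q : ℚ) ^ 4 / ((Cl E A y).card : ℚ) - 1) =
      (q : ℚ) ^ 4 * ((q : ℚ) - 1) := by
    rw [sum_congr rfl fun y _ => span_id h (by omega) a b c hab hbc hac y, sum_const, card_univ,
      h.pts, nsmul_eq_mul]
    push_cast
    rfl
  rw [sum_comm] at h1
  have h2 : (S.card : ℚ) * (q : ℚ) ^ 4 ≤ (q : ℚ) ^ 4 * ((q : ℚ) - 1) := by
    rw [← h1, ← nsmul_eq_mul, ← sum_const]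
    refine sum_le_sum fun A hA => Ind_two h hq A ?_
    exact (mem_filter.1 hA).2.1
  have hq0 : (0 : ℚ) < (q : ℚ) ^ 4 := by
    have : 0 < q := by omega
    positivity
  have h3 : (S.card : ℚ) ≤ (q : ℚ) - 1 := by
    rw [mul_comm] at h2
    exact le_of_mul_le_mul_left h2 hq0
  have h4 : (S.card : ℚ) + 1 ≤ (q : ℚ) := by linarith
  have h5 : S.card + 1 ≤ q := by exact_mod_cast h4
  omega

theorem ind_ex (h : Co E T q) (hq : 3 ≤ q) : ∃ a b c d, Ind E a b c d := by
  have hq2 : 2 ≤ q := by omega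
  have hJ : 2 < Fintype.card J := by
    rw [h.dirs]
    nlinarith
  obtain ⟨a, b, c, hab, hac, hbc⟩ := Fintype.two_lt_card_iff.1 hJ
  set K : Finset J := {a, b, c} with hK
  have hKc : K.card = 3 := card_eq_three.2 ⟨a, b, c, hab, hac, hbc, rfl⟩
  set S := (univ : Finset (Finset J)).filter (fun A => Fam E q A ∧ K ⊆ A) with hS
  have hSc : S.card ≤ q - 1 := Ind_S h hq a b c hab hbc hac
  -- the fourth direction
  have hU : (K ∪ S.biUnion (fun A => A \ K)).card < Fintype.card J := by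
    have h1 : (S.biUnion (fun A => A \ K)).card ≤ S.card * (q - 2) := by
      refine card_biUnion_le_card_mul S _ _ fun A hA => ?_
      have h2 := (mem_filter.1 hA).2
      have h3 : (A \ K).card = A.card - K.card := card_sdiff_of_subset h2.2
      rw [h3, hKc, h2.1.1]
      omega
    have h2 : (K ∪ S.biUnion (fun A => A \ K)).card ≤ K.card + (S.biUnion (fun A => A \ K)).card :=
      card_union_le _ _
    have h3 : S.card * (q - 2) ≤ (q - 1) * (q - 2) := Nat.mul_le_mul_right _ hSc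
    rw [h.dirs]
    obtain ⟨m, rfl⟩ : ∃ m, q = m + 3 := ⟨q - 3, by omega⟩
    have h4 : (m + 3 - 1) * (m + 3 - 2) = (m + 2) * (m + 1) := by
      congr 1
    rw [h4] at h3
    nlinarith
  obtain ⟨d, hd⟩ : ∃ d, d ∉ K ∪ S.biUnion (fun A => A \ K) := by
    by_contra hcon
    push Not at hcon
    have h1 : (univ : Finset J) ⊆ K ∪ S.biUnion (fun A => A \ K) := fun y _ => hcon y
    have h2 := card_le_card h1
    rw [card_univ] at h2
    omega
  rw [mem_union, not_or] at hd
  obtain ⟨hdK, hdS⟩ := hd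
  have hdA : ∀ A ∈ S, d ∉ A := by
    intro A hA hdA
    exact hdS (mem_biUnion.2 ⟨A, hA, mem_sdiff.2 ⟨hdA, hdK⟩⟩)
  -- averages vanish
  have h0 : ∀ f : Ω → ℚ, ∑ y, f y = 0 → Inv E K f → Av E q d f = 0 := by
    intro f hf hi
    by_contra hne
    have h1 : ∑ y, Av E q d f y = 0 := by
      rw [av_sum h hq2 d f univ (fun _ _ _ z _ _ => mem_univ z)]
      exact hf
    have h2 : Inv E (insert d K) (Av E q d f) := by
      intro x hx y z hyz
      rcases mem_insert.1 hx with h3 | h3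
      · rw [h3] at hyz
        exact av_line h d f hyz
      · exact av_inv h hq2 hi d x h3 y z hyz
    obtain ⟨D, hD, hDF, -⟩ := l4 h hq2 (insert d K) (by
      rw [card_insert_of_notMem hdK, hKc]
      norm_num) _ hne h1 h2
    refine hdA D ?_ (hD (mem_insert_self d K))
    rw [hS, mem_filter]
    exact ⟨mem_univ _, hDF, (subset_insert d K).trans hD⟩
  have hcount : ∀ y z, ((univ.filter (fun w => E d y w)).filter (fun w => w ∈ Cl E K z)).card = 1 := by
    intro y z
    have hq0 : (q : ℚ) ≠ 0 := h.qpos hq2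
    have h1 : ∑ w : Ω, (((if w ∈ Cl E K z then 1 else 0) : ℚ) - 1 / q) = 0 := by
      rw [sum_sub_distrib, sum_const, card_univ, h.pts, nsmul_eq_mul, sum_ite_mem, univ_inter,
        sum_const, nsmul_eq_mul, mul_one, tri_card h a b c hab hbc hac z]
      push_cast
      field_simp
      ring
    have h2 := congrFun (h0 _ h1 ((Cl_clo K z).inv h (1 / q))) y
    unfold Av at h2
    rw [Pi.zero_apply, div_eq_zero_iff, or_iff_left hq0, sum_sub_distrib, sum_const,
      h.cls d y, nsmul_eq_mul, sum_ite, sum_const_zero, add_zero, sum_const, nsmul_eq_mul,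
      mul_one, mul_one_div, div_self hq0] at h2
    have h3 : ((((univ.filter (fun w => E d y w)).filter (fun w => w ∈ Cl E K z)).card : ℕ) : ℚ) =
        ((1 : ℕ) : ℚ) := by
      push_cast
      linarith
    exact_mod_cast h3
  have hda : a ≠ d := fun h1 => hdK (by rw [hK, ← h1]; simp)
  have hdb : b ≠ d := fun h1 => hdK (by rw [hK, ← h1]; simp)
  have hdc : c ≠ d := fun h1 => hdK (by rw [hK, ← h1]; simp)
  refine ⟨a, b, c, d, ⟨hab, hac, hda, hbc, hdb, hdc, fun y z => ?_, fun y w hyw hr => ?_⟩⟩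
  · have h1 : 0 < ((univ.filter (fun w => E d y w)).filter (fun w => w ∈ Cl E K z)).card := by
      rw [hcount]
      norm_num
    obtain ⟨w, hw⟩ := card_pos.1 h1
    rw [mem_filter, mem_filter] at hw
    exact ⟨w, hw.1.2, mem_Cl.1 hw.2⟩
  · have h1 := card_le_one.1 (hcount y y).le
    refine h1 y ?_ w ?_
    · rw [mem_filter, mem_filter]
      exact ⟨⟨mem_univ _, h.refl _ _⟩, Cl_self K y⟩
    · rw [mem_filter, mem_filter]
      exact ⟨⟨mem_univ _, hyw⟩, mem_Cl.2 hr⟩

end Pool.H67.CS
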