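import Mathlib

/-!
# Row Twn (MP_718a21_CS): the case p = 2 (130 lines), Mathlib only

`twn_one`: a group `K` of order `2 s`, `s` odd, has a (normal) subgroup of order `s`, consisting of the elements of odd order.
 Proof: `K` acts on itself by left multiplication (`MulAction.toPermHom K K`); an element `t` of order 2 (Cauchy) acts as a permutation without
 fixed points, `t^2 = 1`, so it is a product of `s` transpositions, sign `(-1)^s = -1` (`Equiv.Perm.sign_of_cycleType`, the cycle type is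
 `Multiset.replicate s 2`; or `Equiv.Perm.sign` of an involution without fixed points). The kernel of `sign ∘ action` has index 2, order
 `s`. Elements of odd order have sign 1.
`twn`: `|G| = (2 r)^2`, `r` odd, `A`, `B` subgroups of order `2 r` with `A ⊓ B = ⊥`. Then `G` has a normal subgroup of order `r^2`.
 Proof: `G` acts on the left cosets `G ⧸ A` (`2 r` points). `B` acts freely: if `b g A = g A`... by counting `A ⊓ B = ⊥`, `|A| |B| = |G|`, so
 every `g` is `b₁ a₁` (`Subgroup.isComplement'_of_coprime`-like counting: `(b, a) ↦ b a` is injective, so bijective), and `b b₁ A = b₁ A` means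
 `b₁⁻¹ b b₁ ∈ A ⊓ B`, `b = 1`. So an element `t ∈ B` of order 2 acts without fixed points on `2 r` points: `r` transpositions, sign `-1`. So
 `K` = kernel of `sign ∘ action` is normal of index 2, order `2 r^2`, `r^2` odd. By `twn_one`, the elements of `K` of odd order form a subgroup of
 order `r^2`; it is invariant under conjugation by `G`.
-/

set_option autoImplicit false

namespace Pool.H67.CS

private theorem Twn_sign {α : Type*} [Fintype α] [DecidableEq α] (σ : Equiv.Perm α)
    (h2 : σ ^ 2 = 1) (hfix : ∀ x, σ x ≠ x) (s : ℕ) (hs : ¬ 2 ∣ s) (hc : Fintype.card α = 2 * s) :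
    Equiv.Perm.sign σ = -1 := by
  have hs0 : 0 < s := Nat.pos_of_ne_zero fun h => hs (h ▸ dvd_zero 2)
  have hpos : 0 < Fintype.card α := by omega
  obtain ⟨x0⟩ := Fintype.card_pos_iff.1 hpos
  have hne : σ ≠ 1 := by
    intro h
    exact hfix x0 (by rw [h]; rfl)
  have hord : orderOf σ = 2 := orderOf_eq_prime h2 hne
  obtain ⟨n, hn⟩ := Equiv.Perm.cycleType_prime_order (σ := σ) (by rw [hord]; exact Nat.prime_two)
  rw [hord] at hn
  have hsum := σ.sum_cycleType
  have hsupp : σ.support = Finset.univ := by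
    ext x
    simp [Equiv.Perm.mem_support, hfix x]
  rw [hsupp, Finset.card_univ, hc, hn, Multiset.sum_replicate, smul_eq_mul] at hsum
  rw [Equiv.Perm.sign_of_cycleType, hn, Multiset.sum_replicate, Multiset.card_replicate, smul_eq_mul]
  have hodd : Odd ((n + 1) * 2 + (n + 1)) := by
    rw [Nat.odd_iff]
    omega
  exact hodd.neg_one_pow

private theorem Twn_odd {G : Type*} [Group G] (φ : G →* ℤˣ) (x : G) (hx : ¬ 2 ∣ orderOf x) :
    φ x = 1 := by
  rcases Int.units_eq_one_or (φ x) with h | h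
  · exact h
  · exfalso
    have h1 : (φ x) ^ orderOf x = 1 := by rw [← map_pow, pow_orderOf_eq_one, map_one]
    rw [h] at h1
    have hodd : Odd (orderOf x) := by
      rw [Nat.odd_iff]
      omega
    rw [hodd.neg_one_pow] at h1
    exact absurd h1 (by decide)

private theorem Twn_index {G : Type*} [Group G] [Finite G] (φ : G →* ℤˣ) (t : G) (ht : φ t = -1) :
    2 * Nat.card φ.ker = Nat.card G := by
  have hr : φ.range = ⊤ := by
    rw [eq_top_iff]
    intro u _
    rcases Int.units_eq_one_or u with h | h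
    · exact ⟨1, by rw [map_one, h]⟩
    · exact ⟨t, by rw [ht, h]⟩
  have h1 := Subgroup.index_ker φ
  have hc : Nat.card φ.range = 2 := by
    rw [hr, Subgroup.card_top, Nat.card_eq_fintype_card]
    rfl
  rw [hc] at h1
  have h2 := Subgroup.card_mul_index φ.ker
  rw [h1] at h2
  omega

theorem twn_one {K : Type*} [Group K] [Finite K] (s : ℕ) (hs : ¬ 2 ∣ s) (hK : Nat.card K = 2 * s) :
    ∃ N : Subgroup K, Nat.card N = s ∧ ∀ x, x ∈ N ↔ ¬ 2 ∣ orderOf x := by
  classical
  haveI : Fintype K := Fintype.ofFinite K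
  set φ : K →* ℤˣ := (Equiv.Perm.sign : Equiv.Perm K →* ℤˣ).comp (MulAction.toPermHom K K) with hφ
  haveI : Fact (Nat.Prime 2) := ⟨Nat.prime_two⟩
  obtain ⟨t, ht⟩ := exists_prime_orderOf_dvd_card' (G := K) 2 (hK ▸ dvd_mul_right 2 s)
  have ht2 : t ^ 2 = 1 := by rw [← ht, pow_orderOf_eq_one]
  have htne : t ≠ 1 := by
    rintro rfl
    rw [orderOf_one] at ht
    omega
  have hφt : φ t = -1 := by
    rw [hφ, MonoidHom.comp_apply]
    refine Twn_sign _ ?_ ?_ s hs ?_
    · rw [← map_pow, ht2, map_one]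
    · intro x hx
      have hx' : t * x = x := hx
      exact htne (mul_eq_right.1 hx')
    · rw [← Nat.card_eq_fintype_card, hK]
  have hcard := Twn_index φ t hφt
  have hN : Nat.card φ.ker = s := by omega
  refine ⟨φ.ker, hN, fun x => ⟨fun hx h2 => ?_, fun hx => ?_⟩⟩
  · have h3 : orderOf x ∣ Nat.card φ.ker := Subgroup.orderOf_dvd_natCard φ.ker hx
    rw [hN] at h3
    exact hs (h2.trans h3)
  · exact MonoidHom.mem_ker.2 (Twn_odd φ x hx)

theorem twn {G : Type*} [Group G] [Finite G] (r : ℕ) (hr : ¬ 2 ∣ r) (hG : Nat.card G = (2 * r) ^ 2)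
    (A B : Subgroup G) (hA : Nat.card A = 2 * r) (hB : Nat.card B = 2 * r) (hAB : A ⊓ B = ⊥) :
    ∃ N : Subgroup G, N.Normal ∧ Nat.card N = r ^ 2 := by
  classical
  haveI : Fintype (G ⧸ A) := Fintype.ofFinite _
  have hr0 : 0 < r := Nat.pos_of_ne_zero fun h => hr (h ▸ dvd_zero 2)
  set φ : G →* ℤˣ := (Equiv.Perm.sign : Equiv.Perm (G ⧸ A) →* ℤˣ).comp
    (MulAction.toPermHom G (G ⧸ A)) with hφ
  haveI : Fact (Nat.Prime 2) := ⟨Nat.prime_two⟩
  obtain ⟨t, ht⟩ := exists_prime_orderOf_dvd_card' (G := B) 2 (hB ▸ dvd_mul_right 2 r)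
  have ht2 : t ^ 2 = 1 := by rw [← ht, pow_orderOf_eq_one]
  have htne : t ≠ 1 := by
    rintro rfl
    rw [orderOf_one] at ht
    omega
  have hinj : Function.Injective (fun g => g.1 * g.2 : B × A → G) :=
    Subgroup.mul_injective_of_disjoint (disjoint_iff.2 (by rw [inf_comm]; exact hAB))
  have hsurj : Function.Surjective (fun g => g.1 * g.2 : B × A → G) := by
    refine (hinj.bijective_of_nat_card_le ?_).2
    rw [Nat.card_prod, hA, hB, hG]
    exact le_of_eq (by ring)
  have hquot : Fintype.card (G ⧸ A) = 2 * r := by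
    have h1 := A.card_eq_card_quotient_mul_card_subgroup
    rw [hG, hA, sq] at h1
    rw [← Nat.card_eq_fintype_card]
    exact (Nat.eq_of_mul_eq_mul_right (by omega) h1).symm
  have hφt : φ (t : G) = -1 := by
    rw [hφ, MonoidHom.comp_apply]
    refine Twn_sign _ ?_ ?_ r hr hquot
    · rw [← map_pow]
      have : (t : G) ^ 2 = 1 := by
        have := congrArg Subtype.val ht2
        simpa using this
      rw [this, map_one]
    · intro x hx
      induction x using QuotientGroup.induction_on with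
      | H g =>
        obtain ⟨⟨b, a⟩, hba⟩ := hsurj g
        have hba' : (b : G) * (a : G) = g := hba
        have hx1 : ((((t : G) * g : G)) : G ⧸ A) = (g : G ⧸ A) := hx
        rw [QuotientGroup.eq] at hx1
        have h3 : ((b : G))⁻¹ * (t : G)⁻¹ * (b : G) ∈ A := by
          have h4 : ((t : G) * g)⁻¹ * g = (a : G)⁻¹ * (((b : G))⁻¹ * (t : G)⁻¹ * (b : G)) * (a : G) := by
            rw [← hba']
            group
          rw [h4] at hx1
          have h5 := A.mul_mem (A.mul_mem a.2 hx1) (A.inv_mem a.2)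
          have h6 : (a : G) * ((a : G)⁻¹ * (((b : G))⁻¹ * (t : G)⁻¹ * (b : G)) * (a : G)) * (a : G)⁻¹ =
              ((b : G))⁻¹ * (t : G)⁻¹ * (b : G) := by group
          rwa [h6] at h5
        have h4 : ((b : G))⁻¹ * (t : G)⁻¹ * (b : G) ∈ B :=
          B.mul_mem (B.mul_mem (B.inv_mem b.2) (B.inv_mem t.2)) b.2
        have h5 : ((b : G))⁻¹ * (t : G)⁻¹ * (b : G) ∈ A ⊓ B := ⟨h3, h4⟩
        rw [hAB, Subgroup.mem_bot] at h5
        have h6 : (t : G) = 1 := by
          have h7 : (t : G)⁻¹ = (b : G) * (((b : G))⁻¹ * (t : G)⁻¹ * (b : G)) * (b : G)⁻¹ := by group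
          rw [h5, mul_one, mul_inv_cancel] at h7
          exact inv_eq_one.1 h7
        exact htne (Subtype.ext h6)
  have hcard := Twn_index φ (t : G) hφt
  have hker : Nat.card φ.ker = 2 * r ^ 2 := by
    rw [hG] at hcard
    nlinarith
  have hr2 : ¬ 2 ∣ r ^ 2 := fun h => hr (Nat.prime_two.dvd_of_dvd_pow h)
  obtain ⟨N0, hN0, hN0'⟩ := twn_one (r ^ 2) hr2 hker
  refine ⟨N0.map φ.ker.subtype, ⟨fun n hn g => ?_⟩, ?_⟩
  · obtain ⟨m, hm, rfl⟩ := Subgroup.mem_map.1 hn
    have hk : g * (m : G) * g⁻¹ ∈ φ.ker := (MonoidHom.normal_ker φ).conj_mem _ m.2 g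
    refine Subgroup.mem_map.2 ⟨⟨g * (m : G) * g⁻¹, hk⟩, ?_, rfl⟩
    rw [hN0']
    have h1 := (hN0' m).1 hm
    have h2 : orderOf (⟨g * (m : G) * g⁻¹, hk⟩ : φ.ker) = orderOf m := by
      rw [← Subgroup.orderOf_coe, ← Subgroup.orderOf_coe]
      have := (MulAut.conj g).orderOf_eq (m : G)
      rw [MulAut.conj_apply] at this
      exact this
    rw [h2]
    exact h1
  · rw [Nat.card_congr (N0.equivMapOfInjective _ (Subtype.coe_injective)).toEquiv.symm, hN0]

end Pool.H67.CS
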