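import Pool.Agent.H67.CS.Fnc
import Pool.Agent.H67.CS.Twn
import Pool.Agent.H67.CS.Pm

/-!
# Row Nlp (MP_718a21_CS): the normal p-complement of a product of two permutable subgroups (90 lines)

`Good p α r`: `α = 1` and `p = 2`, or no prime divisor of `r` divides `p^i - 1` for `1 ≤ i ≤ 2 α`.
`nlp`: `A`, `B` permutable, `A ⊓ B = ⊥`, both of order `p^α r`, `p ∤ r`, `Good`. Then `A ⊔ B` has a normal subgroup of order `r^2`.
Proof: `Nat.card (A ⊔ B) = (p^α r)^2` (`Pm.card`). Let `K = ↥(A ⊔ B)`. If `p = 2`, `α = 1`: `twn` for `K` with `A.subgroupOf (A ⊔ B)`,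
`B.subgroupOf (A ⊔ B)`. Otherwise `FN p K`: a prime `s ≠ p` dividing `p^(2 α) r^2` divides `r`, and `p^i ∣ p^(2 α) r^2` gives `i ≤ 2 α`. `fnc` gives
`N` normal in `K`, `p ∤ |N|`, `p^(2 α) r^2 = p^k |N|`, so `|N| = r^2`. Map `N` to `G` with `Subgroup.map (Subgroup.subtype _)`.
-/

set_option autoImplicit false

namespace Pool.H67.CS

/-- the arithmetic condition on the prime `p`, its exponent `α` and the cofactor `r` -/
def Good (p α r : ℕ) : Prop :=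
  (p = 2 ∧ α = 1) ∨ ∀ s : ℕ, s.Prime → s ∣ r → ∀ i, 1 ≤ i → i ≤ 2 * α → ¬ s ∣ p ^ i - 1

theorem NLP_core {K : Type*} [Group K] [Finite K] (p α r : ℕ) (hp : p.Prime) (hr : ¬ p ∣ r)
    (hg : Good p α r) (A B : Subgroup K) (hK : Nat.card K = (p ^ α * r) ^ 2)
    (hA : Nat.card A = p ^ α * r) (hB : Nat.card B = p ^ α * r) (hAB : A ⊓ B = ⊥) :
    ∃ N : Subgroup K, N.Normal ∧ Nat.card N = r ^ 2 := by
  rcases hg with ⟨rfl, rfl⟩ | hg
  · rw [pow_one] at hK hA hB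
    exact twn r hr hK A B hA hB hAB
  · have : Fact p.Prime := ⟨hp⟩
    have hr0 : r ≠ 0 := by
      rintro rfl
      exact hr (dvd_zero p)
    have hK2 : Nat.card K = p ^ (2 * α) * r ^ 2 := by rw [hK, mul_pow, ← pow_mul, mul_comm α 2]
    have hcop : Nat.Coprime p (r ^ 2) := (hp.coprime_iff_not_dvd.2 hr).pow_right 2
    have hFN : FN p K := by
      intro s hs hsK hsp i hi1 hi2
      have h1 : s ∣ r := by
        rw [hK2] at hsK
        rcases hs.dvd_mul.1 hsK with h | h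
        · exact absurd ((Nat.prime_dvd_prime_iff_eq hs hp).1 (hs.dvd_of_dvd_pow h)) hsp
        · exact hs.dvd_of_dvd_pow h
      refine hg s hs h1 i hi1 ?_
      rw [hK2] at hi2
      have h2 : p ^ i ∣ p ^ (2 * α) := (Nat.Coprime.pow_left i hcop).dvd_of_dvd_mul_right hi2
      exact (Nat.pow_dvd_pow_iff_le_right hp.one_lt).1 h2
    obtain ⟨N, hN, hpN, k, hk⟩ := fnc hFN
    refine ⟨N, hN, ?_⟩
    rw [hK2] at hk
    have hcN : Nat.Coprime p (Nat.card N) := hp.coprime_iff_not_dvd.2 hpN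
    apply Nat.dvd_antisymm
    · have h3 : Nat.card N ∣ p ^ (2 * α) * r ^ 2 := by rw [hk]; exact dvd_mul_left _ _
      exact (Nat.Coprime.pow_left (2 * α) hcN).symm.dvd_of_dvd_mul_left h3
    · have h3 : r ^ 2 ∣ p ^ k * Nat.card N := by rw [← hk]; exact dvd_mul_left _ _
      exact (Nat.Coprime.pow_left k hcop).symm.dvd_of_dvd_mul_left h3

theorem nlp {G : Type*} [Group G] [Finite G] (p α r : ℕ) (hp : p.Prime) (hr : ¬ p ∣ r)
    (hg : Good p α r) (A B : Subgroup G) (hpm : Pm A B) (hA : Nat.card A = p ^ α * r)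
    (hB : Nat.card B = p ^ α * r) (hAB : A ⊓ B = ⊥) :
    ∃ N ≤ A ⊔ B, (∀ g ∈ A ⊔ B, ∀ x ∈ N, g * x * g⁻¹ ∈ N) ∧ Nat.card N = r ^ 2 := by
  have hcard : Nat.card (A ⊔ B : Subgroup G) = (p ^ α * r) ^ 2 := by
    have h := hpm.card
    rw [hAB, hA, hB] at h
    rw [Subgroup.card_bot, mul_one] at h
    rw [h, sq]
  have hA' : Nat.card (A.subgroupOf (A ⊔ B)) = p ^ α * r := by
    rw [← hA]
    exact Nat.card_congr (Subgroup.subgroupOfEquivOfLe le_sup_left).toEquiv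
  have hB' : Nat.card (B.subgroupOf (A ⊔ B)) = p ^ α * r := by
    rw [← hB]
    exact Nat.card_congr (Subgroup.subgroupOfEquivOfLe le_sup_right).toEquiv
  have hAB' : A.subgroupOf (A ⊔ B) ⊓ B.subgroupOf (A ⊔ B) = ⊥ := by
    rw [eq_bot_iff]
    intro x hx
    have h1 : (x : G) ∈ A ⊓ B := ⟨Subgroup.mem_subgroupOf.1 hx.1, Subgroup.mem_subgroupOf.1 hx.2⟩
    rw [hAB] at h1
    exact Subgroup.mem_bot.2 (Subtype.ext (Subgroup.mem_bot.1 h1))
  obtain ⟨N, hN, hNc⟩ := NLP_core p α r hp hr hg (A.subgroupOf (A ⊔ B)) (B.subgroupOf (A ⊔ B))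
    hcard hA' hB' hAB'
  refine ⟨N.map (A ⊔ B).subtype, ?_, ?_, ?_⟩
  · rintro _ ⟨x, -, rfl⟩
    exact x.2
  · rintro g hg' _ ⟨x, hx, rfl⟩
    exact ⟨⟨g, hg'⟩ * x * ⟨g, hg'⟩⁻¹, hN.conj_mem x hx ⟨g, hg'⟩, rfl⟩
  · rw [← hNc]
    exact Nat.card_congr (N.equivMapOfInjective _ (Subgroup.subtype_injective _)).symm.toEquiv

end Pool.H67.CS
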