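import Pool.Agent.H67.CS.Gjb
import Pool.Agent.H67.CS.Nlp
import Pool.Agent.H67.CS.Ggm
import Pool.Agent.H67.CR.Gqf

/-!
# Coregular points: the theorem
-/

set_option autoImplicit false

namespace Pool.H67.CS

open Finset Classical
open Pool.H67.CR
open Pool.H63.GQ

theorem co_false {Ω J : Type*} [Fintype Ω] [Fintype J] {E T : J → Ω → Ω → Prop} {q : ℕ}
    (h : Co E T q) (p α r : ℕ) (hp : p.Prime) (hα : 1 ≤ α) (hr : ¬ p ∣ r) (hq : q = p ^ α * r)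
    (hg : Good p α r) (hpr : p ^ α < r) : False := by
  have hp2 : 2 ≤ p := hp.two_le
  have hQ : 2 ≤ p ^ α := by
    calc 2 ≤ p := hp2
      _ = p ^ 1 := (pow_one p).symm
      _ ≤ p ^ α := Nat.pow_le_pow_right (by omega) hα
  have hq3 : 3 ≤ q := by rw [hq]; nlinarith
  obtain ⟨a, b, c, d, hJ⟩ := ind_ex h hq3
  set K : Finset J := {a, b, c, d} with hKdef
  have hK : ∀ y z, Rel E K y z := tja_conn hJ
  have hKc : K.card = 4 := by
    rw [hKdef, Finset.card_insert_of_notMem, Finset.card_insert_of_notMem, Finset.card_insert_of_notMem,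
      Finset.card_singleton]
    · simp [hJ.cd]
    · simp [hJ.bc, hJ.bd]
    · simp [hJ.ab, hJ.ac, hJ.ad]
  have hσ : ∀ m ∉ K, ∀ y0 y0', E m y0 y0' → ∃ σ : Ω → Ω, σ y0 = y0' ∧ PJ E K m σ :=
    fun m hm y0 y0' h0 => tja h hJ hm h0
  have hcard : ∀ m : {m : J // m ∉ K}, Nat.card (AJ h m.2) = p ^ α * r := by
    intro m
    rw [gja_card h (by omega) hK m.2 (hσ m.1 m.2), hq]
  have hpm : ∀ m n : {m : J // m ∉ K}, Pm (AJ h m.2) (AJ h n.2) :=
    fun m n => gjb_pm h hK m.2 n.2 (hσ m.1 m.2) (hσ n.1 n.2)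
  have hinf : ∀ m n : {m : J // m ∉ K}, m ≠ n → AJ h m.2 ⊓ AJ h n.2 = ⊥ :=
    fun m n hmn => gjb_inf h (fun e => hmn (Subtype.ext e)) m.2 n.2
  have key := ggm p α r hp hα hr (by rw [h.pts, hq]) (fun m : {m : J // m ∉ K} => AJ h m.2) hcard hpm
    (fun m n hmn g hg' y hy => gjb_free h hK (fun e => hmn (Subtype.ext e)) m.2 n.2 (hpm m n) hg' hy)
    hinf (gjb_tr h hq3 hK hKc hσ)
    (fun m n hmn => nlp p α r hp hr hg _ _ (hpm m n) (hcard m) (hcard n) (hinf m n hmn))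
  have hι : Fintype.card {m : J // m ∉ K} = q ^ 2 + 1 - 4 := by
    rw [Fintype.card_subtype_compl, h.dirs]
    simp [hKc]
  rw [hι, hq] at key
  have h1 : p ^ α + 1 ≤ r := hpr
  have h2 : (p ^ α) ^ 4 + 2 * (p ^ α) ^ 3 + (p ^ α) ^ 2 ≤ (p ^ α * r) ^ 2 := by
    calc (p ^ α) ^ 4 + 2 * (p ^ α) ^ 3 + (p ^ α) ^ 2 = (p ^ α * (p ^ α + 1)) ^ 2 := by ring
      _ ≤ (p ^ α * r) ^ 2 := Nat.pow_le_pow_left (Nat.mul_le_mul_left _ h1) 2
  have h3 : 16 ≤ 2 * (p ^ α) ^ 3 := by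
    have := Nat.pow_le_pow_left hQ 3
    omega
  omega

theorem gq_main {P L : Type*} [Fintype P] [Fintype L] {I : P → L → Prop} {q : ℕ} (h : Q I q)
    (p α r : ℕ) (hp : p.Prime) (hα : 1 ≤ α) (hr : ¬ p ∣ r) (hq : q = p ^ α * r)
    (hg : Good p α r) (hpr : p ^ α < r) (x : P) : ¬ ∀ l, I x l → RegLine I q l :=
  fun hreg => co_false (gq_co h x hreg) p α r hp hα hr hq hg hpr

end Pool.H67.CS
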