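import Pool.Agent.H67.CS.Pm

/-!
# Row Pmb (MP_718a21_CS): orders of products of pairwise permutable subgroups (130 lines)

* `pmb_coprime`: induction over finite sets `S` of indices: `p` does not divide `Nat.card (⨆ i ∈ S, B i)`. Step: by `Pm.iSup` (used twice)
 `B j` permutes with `⨆ i ∈ S, B i`, and `Nat.card (X ⊔ B j)` divides `Nat.card X * Nat.card (B j)` (`Pm.card`).
* `pmb_pow`: by induction over `S`: `Nat.card (N ⊔ ⨆ i ∈ S, A i) = p ^ k * Nat.card N` for some `k`. Step: `X = N ⊔ ⨆ i ∈ S, A i` permutes with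
 `A j` (`Pm.sup`, `Pm.iSup`, `Pm.symm`), so `Nat.card (X ⊔ A j) * Nat.card (X ⊓ A j) = Nat.card X * Nat.card (A j)`. As
 `A j ⊓ N ≤ X ⊓ A j ≤ A j`, `Nat.card (A j ⊓ N) ∣ Nat.card (X ⊓ A j) ∣ Nat.card (A j) = p ^ k * Nat.card (A j ⊓ N)` (Lagrange:
 `Subgroup.card_dvd_of_le`), so `Nat.card (A j) = p ^ l * Nat.card (X ⊓ A j)` for some `l` (`Nat.dvd_prime_pow`), and
 `Nat.card (X ⊔ A j) = p ^ l * Nat.card X`.
 (For a finite index type: `⨆ i, B i = ⨆ i ∈ Finset.univ, B i`.)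
-/

set_option autoImplicit false

namespace Pool.H67.CS

variable {G : Type*} [Group G] [Finite G]

theorem pmb_biSup {ι : Type*} {A : Subgroup G} {B : ι → Subgroup G} (S : Finset ι)
    (h : ∀ i, Pm A (B i)) : Pm A (⨆ i ∈ S, B i) := by
  have h1 : (⨆ i ∈ S, B i) = ⨆ i : {i // i ∈ S}, B i.1 := by rw [iSup_subtype]
  rw [h1]
  exact Pm.iSup (B := fun i : {i // i ∈ S} => B i.1) fun i => h i.1

theorem pmb_coprime_aux {ι : Type*} (p : ℕ) (hp : p.Prime) (B : ι → Subgroup G)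
    (h : ∀ i j, Pm (B i) (B j)) (hc : ∀ i, ¬ p ∣ Nat.card (B i)) (S : Finset ι) :
    ¬ p ∣ Nat.card (⨆ i ∈ S, B i : Subgroup G) := by
  classical
  induction S using Finset.induction_on with
  | empty =>
    have h1 : (⨆ i ∈ (∅ : Finset ι), B i : Subgroup G) = ⊥ := by simp
    rw [h1, Subgroup.card_bot]
    exact hp.one_lt.ne' ∘ Nat.dvd_one.1
  | insert j S _ ih =>
    rw [Finset.iSup_insert]
    have h1 := Pm.card (pmb_biSup S (h j))
    intro hdvd
    have h2 : p ∣ Nat.card (B j) * Nat.card (⨆ i ∈ S, B i : Subgroup G) := by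
      rw [← h1]
      exact Dvd.dvd.mul_right hdvd _
    rcases hp.dvd_mul.1 h2 with h3 | h3
    · exact hc j h3
    · exact ih h3

theorem pmb_coprime {ι : Type*} [Finite ι] (p : ℕ) (hp : p.Prime) (B : ι → Subgroup G)
    (h : ∀ i j, Pm (B i) (B j)) (hc : ∀ i, ¬ p ∣ Nat.card (B i)) :
    ¬ p ∣ Nat.card (⨆ i, B i : Subgroup G) := by
  have := Fintype.ofFinite ι
  have h1 := pmb_coprime_aux p hp B h hc Finset.univ
  simpa using h1

theorem pmb_pow_aux {ι : Type*} (p : ℕ) (hp : p.Prime) (N : Subgroup G) (A : ι → Subgroup G)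
    (hN : ∀ i, Pm N (A i)) (h : ∀ i j, Pm (A i) (A j))
    (hc : ∀ i, ∃ k, Nat.card (A i) = p ^ k * Nat.card (A i ⊓ N : Subgroup G)) (S : Finset ι) :
    ∃ k, Nat.card (N ⊔ ⨆ i ∈ S, A i : Subgroup G) = p ^ k * Nat.card N := by
  classical
  induction S using Finset.induction_on with
  | empty => exact ⟨0, by simp⟩
  | insert j S _ ih =>
    obtain ⟨k, hk⟩ := ih
    set X : Subgroup G := N ⊔ ⨆ i ∈ S, A i with hX
    have hPm : Pm (A j) X := Pm.sup (Pm.symm (hN j)) (pmb_biSup S (h j))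
    have h1 := Pm.card hPm
    have h2 : (N ⊔ ⨆ i ∈ insert j S, A i : Subgroup G) = A j ⊔ X := by
      rw [Finset.iSup_insert, hX, sup_left_comm]
    rw [h2]
    obtain ⟨m, hm⟩ := hc j
    have h3 : Nat.card (A j ⊓ N : Subgroup G) ∣ Nat.card (A j ⊓ X : Subgroup G) :=
      Subgroup.card_dvd_of_le (inf_le_inf_left _ (hX ▸ le_sup_left))
    have h4 : Nat.card (A j ⊓ X : Subgroup G) ∣ Nat.card (A j) :=
      Subgroup.card_dvd_of_le inf_le_left
    obtain ⟨c, hc'⟩ := h4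
    obtain ⟨e, he⟩ := h3
    have hpos : 0 < Nat.card (A j ⊓ N : Subgroup G) := Nat.card_pos
    have h5 : e * c = p ^ m := by
      have : Nat.card (A j ⊓ N : Subgroup G) * (e * c) =
          Nat.card (A j ⊓ N : Subgroup G) * p ^ m := by
        rw [← mul_assoc, ← he, ← hc', hm, mul_comm]
      exact Nat.eq_of_mul_eq_mul_left hpos this
    obtain ⟨l, -, hl⟩ := (Nat.dvd_prime_pow hp).1 (⟨e, by rw [← h5, mul_comm]⟩ : c ∣ p ^ m)
    refine ⟨l + k, ?_⟩
    have hpos2 : 0 < Nat.card (A j ⊓ X : Subgroup G) := Nat.card_pos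
    have h6 : Nat.card (A j ⊔ X : Subgroup G) * Nat.card (A j ⊓ X : Subgroup G) =
        (p ^ (l + k) * Nat.card N) * Nat.card (A j ⊓ X : Subgroup G) := by
      rw [h1, hc', hl, hk, pow_add]
      ring
    exact Nat.eq_of_mul_eq_mul_right hpos2 h6

theorem pmb_pow {ι : Type*} [Finite ι] (p : ℕ) (hp : p.Prime) (N : Subgroup G) (A : ι → Subgroup G)
    (hN : ∀ i, Pm N (A i)) (h : ∀ i j, Pm (A i) (A j))
    (hc : ∀ i, ∃ k, Nat.card (A i) = p ^ k * Nat.card (A i ⊓ N : Subgroup G)) :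
    ∃ k, Nat.card (N ⊔ ⨆ i, A i : Subgroup G) = p ^ k * Nat.card N := by
  have := Fintype.ofFinite ι
  have h1 := pmb_pow_aux p hp N A hN h hc Finset.univ
  simpa using h1

end Pool.H67.CS
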