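import Mathlib

/-!
# Row Srt (MP_718a21_CS): four commuting equivalence relations (60 lines), Mathlib only

`srt`: `r 0, r 1, r 2, r 3` equivalence relations on `α` which commute pairwise. Points joined by a chain of steps are joined by
`r 0`, then `r 1`, then `r 2`, then `r 3`.
Proof: let `S x y := ∃ u v w, r 0 x u ∧ r 1 u v ∧ r 2 v w ∧ r 3 w y`. Reflexive. `S x y` and `r i y z` imply `S x z`: move the step `r i` to
the left by commutation until it stands next to the `r i` step of the path, and use transitivity. So `S` contains every chain: induction on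
`Relation.EqvGen`: the cleanest way is to show first that `EqvGen R x y` (R symmetric) implies `Relation.ReflTransGen R x y`
and then induct on `ReflTransGen` (head or tail).
-/

set_option autoImplicit false

namespace Pool.H67.CS

theorem srt {α : Type*} (r : Fin 4 → α → α → Prop) (hr : ∀ i x, r i x x)
    (hs : ∀ i x y, r i x y → r i y x) (ht : ∀ i x y z, r i x y → r i y z → r i x z)
    (hc : ∀ i j x y z, r i x y → r j y z → ∃ w, r j x w ∧ r i w z) (x y : α)
    (h : Relation.EqvGen (fun x y => ∃ i, r i x y) x y) :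
    ∃ u v w, r 0 x u ∧ r 1 u v ∧ r 2 v w ∧ r 3 w y := by
  have h1 : Relation.ReflTransGen (fun x y => ∃ i, r i x y) x y := by
    induction h with
    | rel x y h => exact Relation.ReflTransGen.single h
    | refl x => exact Relation.ReflTransGen.refl
    | symm x y _ ih =>
      clear * - ih hs
      induction ih with
      | refl => exact Relation.ReflTransGen.refl
      | tail _ hbc ih2 =>
        obtain ⟨i, hi⟩ := hbc
        exact Relation.ReflTransGen.head ⟨i, hs i _ _ hi⟩ ih2
    | trans x y z _ _ ih1 ih2 => exact ih1.trans ih2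
  clear h
  induction h1 with
  | refl => exact ⟨x, x, x, hr 0 x, hr 1 x, hr 2 x, hr 3 x⟩
  | @tail b c _ hbc ih =>
    obtain ⟨u, v, w, h0, h1, h2, h3⟩ := ih
    obtain ⟨i, hi⟩ := hbc
    fin_cases i
    · obtain ⟨w', a1, a2⟩ := hc 3 0 w b c h3 hi
      obtain ⟨v', b1, b2⟩ := hc 2 0 v w w' h2 a1
      obtain ⟨u', c1, c2⟩ := hc 1 0 u v v' h1 b1
      exact ⟨u', v', w', ht 0 x u u' h0 c1, c2, b2, a2⟩
    · obtain ⟨w', a1, a2⟩ := hc 3 1 w b c h3 hi
      obtain ⟨v', b1, b2⟩ := hc 2 1 v w w' h2 a1
      exact ⟨u, v', w', h0, ht 1 u v v' h1 b1, b2, a2⟩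
    · obtain ⟨w', a1, a2⟩ := hc 3 2 w b c h3 hi
      exact ⟨u, v, w', h0, h1, ht 2 v w w' h2 a1, a2⟩
    · exact ⟨u, v, w, h0, h1, h2, ht 3 w b c h3 hi⟩

end Pool.H67.CS
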