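import Pool.Agent.H67.CS.Ind
import Pool.Agent.H67.CS.Srt
import Pool.Agent.H67.CR.Tra

/-!
# Row Tja (MP_718a21_CS): transports along four independent directions (170 lines)

`K = {a, b, c, d}` with `Ind E a b c d`.
* `tja_conn`: `Rel E K y z` for all `y, z` (`Ind.meet`: `w` with `E d y w`, `Rel E {a, b, c} z w`).
* `tja_closed`: `E a y u`, `E b u v`, `E c v w`, `E d w y` ⇒ `u = y`, `v = y`, `w = y`. Proof: `Rel E {a, b, c} y w` and `E d y w`, so `w = y`
 (`Ind.once`); then `h.notri a b c` for `y, u, v` gives `y = u`, and `E b y v`, `E c v y`: `v = y` (`h.one`).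
* `PJ E K i σ`: `E i y (σ y)` for all `y`, and `σ` preserves `E e` for `e ∈ K`.
* `tja`: `i ∉ K`, `E i y0 y0'` ⇒ there is `σ` with `σ y0 = y0'` and `PJ E K i σ`. Proof. Let `Λ` = `{p : Ω × Ω // E i p.1 p.2}` with the relations
 `r e p p' := E e p.1 p'.1 ∧ E e p.2 p'.2`, `e ∈ K`. They are equivalence relations, and they commute: let `p = (y, y')`, `r e p (w, w')`,
 `r f (w, w') (z, z')`. If `e = f`: trivial (`h.trans`, take `p` itself). If `e ≠ f`: `h.comm`: `u` with `E f y u`, `E e u z`; `tr_ex`: `u'` with `E i u u'`,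
 `E f y' u'`, and `z''` with `E i z z''`, `E e u' z''`; `tr_cube` gives `z'' = z'`. So `(u, u')` does it.
 Let `S` = `Relation.EqvGen (fun p p' => ∃ e ∈ K, r e p p')`. (i) For every `z` there is `z'` with `S (y0, y0') (z, z')`: induct along `Rel E K y0 z`
 (lift the steps by `tr_ex`; state it for all starting segments so that the symmetric case is fine, or use `ReflTransGen`).
 (ii) `S (z, z') (z, z'')` ⇒ `z' = z''`: by `srt` (for `r 0 .. r 3` = `r a, r b, r c, r d`) there is a sorted path; its first components are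
 closed, so by `tja_closed` all equal to `z`; then the second components are all equal: each step is on an `i`-line (both are on the `i`-line of `z`)
 and on an `e`-line, `e ≠ i` (`h.one`). So `σ z` = the unique `z'`. It preserves `E e`: if `E e z w`, let `w''` with `E i w w''`, `E e (σ z) w''`
 (`tr_ex`): `S (y0, y0') (w, w'')`, so `w'' = σ w`.
-/

set_option autoImplicit false

namespace Pool.H67.CS

open Finset Classical
open Pool.H67.CR

variable {Ω J : Type*} [Fintype Ω] [Fintype J] {E T : J → Ω → Ω → Prop} {q : ℕ}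

/-- `σ` moves along the `i`-lines and preserves the directions of `K` -/
def PJ (E : J → Ω → Ω → Prop) (K : Finset J) (i : J) (σ : Ω → Ω) : Prop :=
  (∀ y, E i y (σ y)) ∧ ∀ e ∈ K, ∀ y z, E e y z → E e (σ y) (σ z)

omit [Fintype Ω] [Fintype J] in
theorem tja_conn {a b c d : J} (hJ : Ind E a b c d) (y z : Ω) : Rel E {a, b, c, d} y z := by
  obtain ⟨w, h1, h2⟩ := hJ.meet y z
  have h3 : Rel E {a, b, c, d} y w := Rel.of (by simp) h1
  have h4 : Rel E {a, b, c, d} z w := by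
    refine Rel.mono ?_ h2
    intro x hx
    simp only [Finset.mem_insert, Finset.mem_singleton] at hx ⊢
    tauto
  exact h3.trans h4.symm

theorem tja_closed (h : Co E T q) {a b c d : J} (hJ : Ind E a b c d) {y u v w : Ω} (h1 : E a y u)
    (h2 : E b u v) (h3 : E c v w) (h4 : E d w y) : u = y ∧ v = y ∧ w = y := by
  have hr : Rel E {a, b, c} y w :=
    ((Rel.of (by simp) h1).trans (Rel.of (by simp) h2)).trans (Rel.of (by simp) h3)
  have hw : y = w := hJ.once y w (h.symm _ _ _ h4) hr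
  subst hw
  have hu : y = u := h.notri a b c y u v hJ.ab hJ.bc hJ.ac h1 h2 h3
  subst hu
  have hv : y = v := h.one b c y v hJ.bc h2 (h.symm _ _ _ h3)
  exact ⟨rfl, hv.symm, rfl⟩

/-- the code of the four directions -/
def Tja_cod (a b c d : J) : Fin 4 → J := ![a, b, c, d]

/-- pairs of points on an `i`-line -/
abbrev Tja_L (E : J → Ω → Ω → Prop) (i : J) := {p : Ω × Ω // E i p.1 p.2}

/-- parallel steps -/
def Tja_r (E : J → Ω → Ω → Prop) (a b c d i : J) (k : Fin 4) (p p' : Tja_L E i) : Prop :=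
  E (Tja_cod a b c d k) p.1.1 p'.1.1 ∧ E (Tja_cod a b c d k) p.1.2 p'.1.2

omit [Fintype J] in
theorem Tja_mem {a b c d e : J} : e ∈ ({a, b, c, d} : Finset J) ↔ ∃ k, Tja_cod a b c d k = e := by
  simp only [Finset.mem_insert, Finset.mem_singleton]
  constructor
  · rintro (rfl | rfl | rfl | rfl)
    · exact ⟨0, rfl⟩
    · exact ⟨1, rfl⟩
    · exact ⟨2, rfl⟩
    · exact ⟨3, rfl⟩
  · rintro ⟨k, rfl⟩
    fin_cases k
    · exact Or.inl rfl
    · exact Or.inr (Or.inl rfl)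
    · exact Or.inr (Or.inr (Or.inl rfl))
    · exact Or.inr (Or.inr (Or.inr rfl))

theorem tja (h : Co E T q) {a b c d : J} (hJ : Ind E a b c d) {i : J}
    (hi : i ∉ ({a, b, c, d} : Finset J)) {y0 y0' : Ω} (h0 : E i y0 y0') :
    ∃ σ : Ω → Ω, σ y0 = y0' ∧ PJ E {a, b, c, d} i σ := by
  have hki : ∀ k, Tja_cod a b c d k ≠ i := by
    intro k hk
    exact hi (Tja_mem.2 ⟨k, hk⟩)
  have hrr : ∀ k x, Tja_r E a b c d i k x x := fun k x => ⟨h.refl _ _, h.refl _ _⟩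
  have hrs : ∀ k x y, Tja_r E a b c d i k x y → Tja_r E a b c d i k y x :=
    fun k x y hxy => ⟨h.symm _ _ _ hxy.1, h.symm _ _ _ hxy.2⟩
  have hrt : ∀ k x y z, Tja_r E a b c d i k x y → Tja_r E a b c d i k y z →
      Tja_r E a b c d i k x z :=
    fun k x y z h1 h2 => ⟨h.trans _ _ _ _ h1.1 h2.1, h.trans _ _ _ _ h1.2 h2.2⟩
  have hrc : ∀ k l x y z, Tja_r E a b c d i k x y → Tja_r E a b c d i l y z →
      ∃ w, Tja_r E a b c d i l x w ∧ Tja_r E a b c d i k w z := by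
    rintro k l ⟨⟨y, y'⟩, hy⟩ ⟨⟨w, w'⟩, hw⟩ ⟨⟨z, z'⟩, hz⟩ ⟨h1, t1⟩ ⟨h2, t2⟩
    by_cases hkl : Tja_cod a b c d k = Tja_cod a b c d l
    · refine ⟨⟨(z, z'), hz⟩, ⟨?_, ?_⟩, ⟨h.refl _ _, h.refl _ _⟩⟩
      · rw [hkl] at h1
        exact h.trans _ _ _ _ h1 h2
      · rw [hkl] at t1
        exact h.trans _ _ _ _ t1 t2
    · obtain ⟨u, h3, h4⟩ := h.comm _ _ y w z h1 h2
      obtain ⟨u', hu, t3⟩ := tr_ex h hy h3
      obtain ⟨z'', hz'', t4⟩ := tr_ex h hu h4
      have hzz : z' = z'' := tr_cube h (hki k) (hki l) hkl h1 h2 h3 h4 hy hw hu hz hz'' t1 t2 t3 t4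
      subst hzz
      exact ⟨⟨(u, u'), hu⟩, ⟨h3, t3⟩, ⟨h4, t4⟩⟩
  -- lifting of paths
  have hlift : ∀ y z, Rel E {a, b, c, d} y z →
      (∀ y' (hy : E i y y'), ∃ z', ∃ hz : E i z z',
        Relation.EqvGen (fun p p' => ∃ k, Tja_r E a b c d i k p p') ⟨(y, y'), hy⟩ ⟨(z, z'), hz⟩) ∧
      (∀ z' (hz : E i z z'), ∃ y', ∃ hy : E i y y',
        Relation.EqvGen (fun p p' => ∃ k, Tja_r E a b c d i k p p') ⟨(z, z'), hz⟩ ⟨(y, y'), hy⟩) := by
    intro y z hyz
    induction hyz with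
    | rel y z hyz =>
      obtain ⟨e, he, hE⟩ := hyz
      obtain ⟨k, rfl⟩ := Tja_mem.1 he
      refine ⟨fun y' hy => ?_, fun z' hz => ?_⟩
      · obtain ⟨z', hz, t⟩ := tr_ex h hy hE
        exact ⟨z', hz, Relation.EqvGen.rel _ _ ⟨k, hE, t⟩⟩
      · obtain ⟨y', hy, t⟩ := tr_ex h hz (h.symm _ _ _ hE)
        exact ⟨y', hy, Relation.EqvGen.rel _ _ ⟨k, h.symm _ _ _ hE, t⟩⟩
    | refl y =>
      exact ⟨fun y' hy => ⟨y', hy, Relation.EqvGen.refl _⟩, fun y' hy => ⟨y', hy, Relation.EqvGen.refl _⟩⟩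
    | symm y z _ ih => exact ⟨ih.2, ih.1⟩
    | trans y z w _ _ ih1 ih2 =>
      refine ⟨fun y' hy => ?_, fun w' hw => ?_⟩
      · obtain ⟨z', hz, s1⟩ := ih1.1 y' hy
        obtain ⟨w', hw, s2⟩ := ih2.1 z' hz
        exact ⟨w', hw, Relation.EqvGen.trans _ _ _ s1 s2⟩
      · obtain ⟨z', hz, s1⟩ := ih2.2 w' hw
        obtain ⟨y', hy, s2⟩ := ih1.2 z' hz
        exact ⟨y', hy, Relation.EqvGen.trans _ _ _ s1 s2⟩
  -- uniqueness
  have huniq : ∀ z z' z'' (hz : E i z z') (hz' : E i z z''),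
      Relation.EqvGen (fun p p' => ∃ k, Tja_r E a b c d i k p p') ⟨(z, z'), hz⟩ ⟨(z, z''), hz'⟩ →
      z' = z'' := by
    intro z z' z'' hz hz' hS
    obtain ⟨⟨⟨u, u'⟩, hu⟩, ⟨⟨v, v'⟩, hv⟩, ⟨⟨w, w'⟩, hw⟩, r0, r1, r2, r3⟩ :=
      srt (Tja_r E a b c d i) hrr hrs hrt hrc _ _ hS
    have e0 : E a z u := r0.1
    have e1 : E b u v := r1.1
    have e2 : E c v w := r2.1
    have e3 : E d w z := r3.1
    obtain ⟨rfl, rfl, rfl⟩ := tja_closed h hJ e0 e1 e2 e3
    have hz0 : E i w z' := hz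
    have hz1 : E i w z'' := hz'
    have hu0 : E i w u' := hu
    have hv0 : E i w v' := hv
    have hw0 : E i w w' := hw
    have f0 : E a z' u' := r0.2
    have f1 : E b u' v' := r1.2
    have f2 : E c v' w' := r2.2
    have f3 : E d w' z'' := r3.2
    have g0 : z' = u' := h.one a i z' u' (hki 0) f0 (h.trans _ _ _ _ (h.symm _ _ _ hz0) hu0)
    have g1 : u' = v' := h.one b i u' v' (hki 1) f1 (h.trans _ _ _ _ (h.symm _ _ _ hu0) hv0)
    have g2 : v' = w' := h.one c i v' w' (hki 2) f2 (h.trans _ _ _ _ (h.symm _ _ _ hv0) hw0)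
    have g3 : w' = z'' := h.one d i w' z'' (hki 3) f3 (h.trans _ _ _ _ (h.symm _ _ _ hw0) hz1)
    rw [g0, g1, g2, g3]
  have hex := fun z => (hlift y0 z (tja_conn hJ y0 z)).1 y0' h0
  choose σ hσ hS using hex
  refine ⟨σ, ?_, hσ, ?_⟩
  · exact (huniq y0 y0' (σ y0) h0 (hσ y0) (hS y0)).symm
  · intro e he z w hzw
    obtain ⟨k, rfl⟩ := Tja_mem.1 he
    obtain ⟨w'', hw, t⟩ := tr_ex h (hσ z) hzw
    have s1 : Relation.EqvGen (fun p p' => ∃ k, Tja_r E a b c d i k p p') ⟨(z, σ z), hσ z⟩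
        ⟨(w, w''), hw⟩ := Relation.EqvGen.rel _ _ ⟨k, hzw, t⟩
    have s2 := Relation.EqvGen.trans _ _ _ (Relation.EqvGen.symm _ _ s1)
      (Relation.EqvGen.trans _ _ _ (Relation.EqvGen.symm _ _ (hS z)) (hS w))
    have := huniq w w'' (σ w) hw (hσ w) s2
    rw [← this]
    exact t

end Pool.H67.CS
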